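import Mathlib

/-! Smooth Riemannian metrics, isometries, Riemannian distance and Riemannian coverings. -/

set_option autoImplicit false

open scoped Manifold ContDiff Topology ENNReal
open Bundle Manifold

noncomputable section

namespace Pool.Agent.Y503.HC

variable {E : Type} [NormedAddCommGroup E] [NormedSpace ℝ E] {H : Type} [TopologicalSpace H]
  (I : ModelWithCorners ℝ E H)
  (M : Type) [TopologicalSpace M] [ChartedSpace H M] [IsManifold I ∞ M]
  (N : Type) [TopologicalSpace N] [ChartedSpace H N] [IsManifold I ∞ N]

/-- The smooth Riemannian metrics on the smooth manifold `M` (in the sense of Mathlib: smooth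
Riemannian metrics on the tangent bundle). -/
abbrev Metric : Type :=
  ContMDiffRiemannianMetric I ∞ E (fun x : M => TangentSpace I x)

variable {I M N}

/-- The Riemannian distance `ρ(x, y)`: the infimum of the lengths of the `C¹` paths from `x` to
`y`. -/
def dist (g : Metric I M) (x y : M) : ℝ≥0∞ :=
  letI : RiemannianBundle (fun x : M => TangentSpace I x) := ⟨g.toRiemannianMetric⟩
  riemannianEDist I x y

/-- The diffeomorphism `f` of `M` is an isometry of `(M, g)`. -/
def IsIsometry (g : Metric I M) (f : Diffeomorph I I M M ∞) : Prop :=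
  ∀ (x : M) (v w : TangentSpace I x),
    g.inner (f x) (mfderiv I I f x v) (mfderiv I I f x w) = g.inner x v w

/-- `(M, g)` is homogeneous: its isometries act transitively. -/
def IsHomogeneous (g : Metric I M) : Prop :=
  ∀ x y : M, ∃ f : Diffeomorph I I M M ∞, IsIsometry g f ∧ f x = y

/-- `(M, g)` is weakly symmetric: any two points are interchanged by some isometry. -/
def IsWeaklySymmetric (g : Metric I M) : Prop :=
  ∀ x y : M, ∃ f : Diffeomorph I I M M ∞, IsIsometry g f ∧ f x = y ∧ f y = x

/-- The group `Γ` acts on `M` freely and properly discontinuously by isometries of `(M, g)`, and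
`p : M → N` exhibits `(N, g')` as the quotient `Γ\(M, g)`: `p` is a surjective covering map and a
local diffeomorphism, its fibres are the orbits of `Γ`, and `g` is the pullback of `g'`. -/
structure IsQuotient (Γ : Type) [Group Γ] [MulAction Γ M] (g : Metric I M) (g' : Metric I N)
    (p : M → N) : Prop where
  isometries : ∀ γ : Γ, ∃ f : Diffeomorph I I M M ∞, IsIsometry g f ∧ ∀ x, f x = γ • x
  free : ∀ (γ : Γ) (x : M), γ • x = x → γ = 1
  proper : ProperlyDiscontinuousSMul Γ M
  surjective : Function.Surjective p
  covering : IsCoveringMap p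
  localDiffeo : IsLocalDiffeomorph I I ∞ p
  fibre : ∀ x y : M, p x = p y ↔ ∃ γ : Γ, γ • x = y
  induced : ∀ (x : M) (v w : TangentSpace I x),
    g'.inner (p x) (mfderiv I I p x v) (mfderiv I I p x w) = g.inner x v w

end Pool.Agent.Y503.HC
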