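import Mathlib

/-! Angles and chords on a sphere. -/

set_option autoImplicit false

open Real InnerProductGeometry
open scoped RealInnerProductSpace

namespace Pool.Agent.Y503.HC

variable {V : Type} [NormedAddCommGroup V] [InnerProductSpace ℝ V]

/-- chord of an angle -/
lemma chord_eq {R : ℝ} (hR : 0 < R) {x y : V} (hx : ‖x‖ = R) (hy : ‖y‖ = R) :
    ‖x - y‖ = 2 * R * sin (angle x y / 2) := by
  have h0 : 0 ≤ sin (angle x y / 2) :=
    sin_nonneg_of_nonneg_of_le_pi (by linarith [angle_nonneg x y])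
      (by linarith [angle_le_pi x y, pi_pos])
  have h1 : ‖x - y‖ ^ 2 = (2 * R * sin (angle x y / 2)) ^ 2 := by
    rw [norm_sub_sq_real, ← cos_angle_mul_norm_mul_norm, hx, hy]
    have h2 : cos (angle x y) = 1 - 2 * sin (angle x y / 2) ^ 2 := by
      have := cos_two_mul' (angle x y / 2)
      rw [show 2 * (angle x y / 2) = angle x y by ring] at this
      rw [this, cos_sq']; ring
    rw [h2]; ring
  exact (sq_eq_sq₀ (norm_nonneg _) (by positivity)).1 h1

/-- on a small scale the angle is almost the chord -/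
lemma angle_le_chord {R ε : ℝ} (hR : 0 < R) (hε : 0 < ε) :
    ∃ δ : ℝ, 0 < δ ∧ ∀ x y : V, ‖x‖ = R → ‖y‖ = R → ‖x - y‖ < δ →
      R * angle x y ≤ (1 + ε) * ‖x - y‖ := by
  -- threshold for the half angle
  set τ : ℝ := min 1 (ε / (1 + ε)) with hτ
  have hτ0 : 0 < τ := by positivity
  have hτ1 : τ ≤ 1 := min_le_left _ _
  have hτ2 : τ ≤ ε / (1 + ε) := min_le_right _ _
  refine ⟨4 * R * τ / π, by positivity, ?_⟩
  intro x y hx hy hxy
  rw [chord_eq hR hx hy] at hxy ⊢
  set θ := angle x y / 2 with hθ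
  have hθ0 : 0 ≤ θ := by linarith [angle_nonneg x y]
  have hθ1 : θ ≤ π / 2 := by linarith [angle_le_pi x y]
  have hang : angle x y = 2 * θ := by rw [hθ]; ring
  rw [hang]
  have h1 : 2 / π * θ ≤ sin θ := mul_le_sin hθ0 hθ1
  have h2 : θ < τ := by
    have h3 : 2 * R * (2 / π * θ) < 4 * R * τ / π :=
      lt_of_le_of_lt (by gcongr) hxy
    have h4 : 2 * R * (2 / π * θ) = 4 * R * θ / π := by ring
    rw [h4, div_lt_div_iff_of_pos_right pi_pos] at h3
    nlinarith
  have h5 : θ ≤ (1 + ε) * sin θ := by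
    rcases hθ0.eq_or_lt with h | h
    · rw [← h]; simp
    · have h6 := sin_gt_sub_cube h
      have h7 : θ ^ 2 ≤ ε / (1 + ε) := by nlinarith
      have h8 : (1 + ε) * θ ^ 2 ≤ ε := by
        rw [le_div_iff₀ (by positivity)] at h7
        linarith
      have h9 : (1 + ε) * (θ - θ ^ 3 / 6) ≤ (1 + ε) * sin θ := by
        apply mul_le_mul_of_nonneg_left h6.le (by positivity)
      have h10 : θ ≤ (1 + ε) * (θ - θ ^ 3 / 6) := by
        have : (1 + ε) * (θ - θ ^ 3 / 6) - θ = θ * (ε - (1 + ε) * θ ^ 2 / 6) := by ring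
        have h11 : 0 ≤ θ * (ε - (1 + ε) * θ ^ 2 / 6) := by
          apply mul_nonneg hθ0
          nlinarith [sq_nonneg θ]
        linarith
      exact h10.trans h9
  nlinarith

end Pool.Agent.Y503.HC
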