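import Pool.Agent.Y503.HC.Len
import Pool.Agent.Y503.HC.Sph

/-! Isometric immersions into a Euclidean space, and into a sphere. -/

set_option autoImplicit false

open scoped Manifold ContDiff Topology ENNReal
open Set Bundle Bornology Filter Manifold MeasureTheory InnerProductGeometry

noncomputable section

namespace Pool.Agent.Y503.HC

variable {E : Type} [NormedAddCommGroup E] [NormedSpace ℝ E] {H : Type} [TopologicalSpace H]
  {I : ModelWithCorners ℝ E H}
  {M : Type} [TopologicalSpace M] [ChartedSpace H M] [IsManifold I ∞ M]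
  {V : Type} [NormedAddCommGroup V] [InnerProductSpace ℝ V]

variable (I) in
/-- the derivative of a map into a vector space -/
def Dm {W : Type} [NormedAddCommGroup W] [NormedSpace ℝ W] (ι : M → W) (x : M) : E →L[ℝ] W :=
  mfderiv I 𝓘(ℝ, W) ι x

/-- `ι` is an isometric immersion -/
structure IsImm (g : Metric I M) (ι : M → V) : Prop where
  smooth : ContMDiff I 𝓘(ℝ, V) ∞ ι
  iso : ∀ (x : M) (v w : TangentSpace I x), g.inner x v w =
    inner ℝ (Dm I ι x v) (Dm I ι x w)

variable {g : Metric I M} {ι : M → V}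

lemma IsImm.nrm_eq (h : IsImm g ι) (x : M) (v : TangentSpace I x) :
    nrm g x v = ‖Dm I ι x v‖ := by
  unfold nrm
  rw [h.iso, real_inner_self_eq_norm_sq, Real.sqrt_sq (norm_nonneg _)]

lemma IsImm.len_eq (h : IsImm g ι) {c : ℝ → M} {a b : ℝ} (hab : a < b)
    (hc : ContMDiffOn 𝓘(ℝ, ℝ) I 1 c (Icc a b)) :
    len g c a b = ∫⁻ t in Icc a b, ‖derivWithin (ι ∘ c) (Icc a b) t‖ₑ := by
  unfold len
  apply setLIntegral_congr_fun measurableSet_Icc
  intro t ht
  have h7 : mfderivWithin 𝓘(ℝ, ℝ) 𝓘(ℝ, V) (ι ∘ c) (Icc a b) t =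
      (mfderiv I 𝓘(ℝ, V) ι (c t)).comp (mfderivWithin 𝓘(ℝ, ℝ) I c (Icc a b) t) := by
    apply mfderiv_comp_mfderivWithin
    · exact (h.smooth (c t)).mdifferentiableAt (by simp)
    · exact (hc t ht).mdifferentiableWithinAt (by simp)
    · rw [uniqueMDiffWithinAt_iff_uniqueDiffWithinAt]
      exact uniqueDiffOn_Icc hab t ht
  have h2 : derivWithin (ι ∘ c) (Icc a b) t =
    Dm I ι (c t) (mfderivWithin 𝓘(ℝ, ℝ) I c (Icc a b) t (1 : ℝ)) := by
    have := congrArg (fun A => A (1 : ℝ)) h7
    simp only [mfderivWithin_eq_fderivWithin] at this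
    rw [← fderivWithin_derivWithin]
    exact this
  show ENNReal.ofReal (nrm g (c t) (mfderivWithin 𝓘(ℝ, ℝ) I c (Icc a b) t (1 : ℝ))) =
    ‖derivWithin (ι ∘ c) (Icc a b) t‖ₑ
  rw [h.nrm_eq, h2, ofReal_norm]

lemma IsImm.contDiffOn (h : IsImm g ι) {c : ℝ → M} {s : Set ℝ}
    (hc : ContMDiffOn 𝓘(ℝ, ℝ) I 1 c s) : ContDiffOn ℝ 1 (ι ∘ c) s := by
  rw [← contMDiffOn_iff_contDiffOn]
  exact (h.smooth.of_le (by simp)).comp_contMDiffOn hc

/-- the chord is at most the distance -/
lemma IsImm.chord_le (h : IsImm g ι) (x y : M) : ENNReal.ofReal ‖ι x - ι y‖ ≤ dist g x y := by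
  apply le_of_forall_gt
  intro r hr
  obtain ⟨c, h0, h1, hc, hlt⟩ := exists_path g hr
  rw [h.len_eq zero_lt_one hc] at hlt
  refine lt_of_le_of_lt ?_ hlt
  have := enorm_sub_le_lintegral_derivWithin_Icc_of_contDiffOn_Icc (h.contDiffOn hc) zero_le_one
  rw [norm_sub_rev, ofReal_norm, ← h0, ← h1]
  exact this

/-- a curve of bounded speed -/
lemma IsImm.dist_le (h : IsImm g ι) {c : ℝ → M} (hc : ContMDiff 𝓘(ℝ, ℝ) I 1 c) {C : ℝ}
    {c' : ℝ → V} (hd : ∀ t, HasDerivAt (ι ∘ c) (c' t) t) (hC : ∀ t, ‖c' t‖ ≤ C) :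
    dist g (c 0) (c 1) ≤ ENNReal.ofReal C := by
  refine (dist_le_len g hc.contMDiffOn zero_le_one).trans ?_
  rw [h.len_eq zero_lt_one hc.contMDiffOn]
  calc ∫⁻ t in Icc 0 1, ‖derivWithin (ι ∘ c) (Icc 0 1) t‖ₑ
      ≤ ∫⁻ t in Icc (0 : ℝ) 1, ENNReal.ofReal C := by
        apply setLIntegral_mono' measurableSet_Icc
        intro t ht
        rw [((hd t).hasDerivWithinAt).derivWithin (uniqueDiffOn_Icc zero_lt_one t ht),
          ← ofReal_norm]
        exact ENNReal.ofReal_le_ofReal (hC t)
    _ = ENNReal.ofReal C := by simp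

/-- the length of a curve on a sphere is at least the angle of its ends -/
lemma IsImm.angle_le_len (h : IsImm g ι) {R : ℝ} (hR : 0 < R) (hι : ∀ x, ‖ι x‖ = R)
    {c : ℝ → M} {a b : ℝ} (hab : a ≤ b) (hc : ContMDiffOn 𝓘(ℝ, ℝ) I 1 c (Icc a b)) :
    ENNReal.ofReal (R * angle (ι (c a)) (ι (c b))) ≤ len g c a b := by
  -- it is enough to lose a factor `1 + ε`
  suffices hs : ∀ ε : ℝ, 0 < ε → ENNReal.ofReal (R * angle (ι (c a)) (ι (c b))) ≤
      ENNReal.ofReal (1 + ε) * len g c a b by
    rcases eq_or_ne (len g c a b) ⊤ with htop | htop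
    · rw [htop]; exact le_top
    have h1 : ∀ ε : ℝ, 0 < ε → R * angle (ι (c a)) (ι (c b)) ≤ (1 + ε) * (len g c a b).toReal := by
      intro ε hε
      have h2 := hs ε hε
      rw [← ENNReal.ofReal_toReal htop, ← ENNReal.ofReal_mul (by positivity)] at h2
      exact (ENNReal.ofReal_le_ofReal_iff (by positivity)).1 h2
    rw [← ENNReal.ofReal_toReal htop]
    apply ENNReal.ofReal_le_ofReal
    have ht : Tendsto (fun ε : ℝ => (1 + ε) * (len g c a b).toReal) (𝓝[>] 0)
        (𝓝 ((1 + 0) * (len g c a b).toReal)) := by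
      apply Tendsto.mono_left _ nhdsWithin_le_nhds
      exact (continuous_const.add continuous_id).mul continuous_const |>.tendsto 0
    rw [add_zero, one_mul] at ht
    exact ge_of_tendsto ht (by filter_upwards [self_mem_nhdsWithin] with ε hε using h1 ε hε)
  intro ε hε
  obtain ⟨δ, hδ, hδ'⟩ := angle_le_chord (V := V) hR hε
  have huc : UniformContinuousOn (ι ∘ c) (Icc a b) :=
    isCompact_Icc.uniformContinuousOn_of_continuous (h.contDiffOn hc).continuousOn
  rw [Metric.uniformContinuousOn_iff] at huc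
  obtain ⟨η, hη, hη'⟩ := huc δ hδ
  -- the partition
  obtain ⟨n, hn⟩ := exists_nat_gt ((b - a) / η)
  have hn0 : (0 : ℝ) < n := lt_of_le_of_lt (div_nonneg (by linarith) hη.le) hn
  set s : ℕ → ℝ := fun k => a + k * ((b - a) / n) with hs
  have hstep : (b - a) / n < η := by
    rw [div_lt_iff₀ hη] at hn
    rw [div_lt_iff₀ hn0]
    linarith
  have hstep0 : 0 ≤ (b - a) / n := div_nonneg (by linarith) hn0.le
  have hsmono : ∀ k, s k ≤ s (k + 1) := by
    intro k
    simp only [hs]
    push_cast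
    nlinarith
  have hs0 : s 0 = a := by simp [hs]
  have hsn : s n = b := by
    simp only [hs]
    field_simp
    ring
  have hsmem : ∀ k, k ≤ n → s k ∈ Icc a b := by
    intro k hk
    have h3 : (k : ℝ) ≤ n := by exact_mod_cast hk
    constructor
    · simp only [hs]; nlinarith [Nat.cast_nonneg (α := ℝ) k]
    · rw [← hsn]
      simp only [hs]
      nlinarith
  have key : ∀ k, k ≤ n → ENNReal.ofReal (R * angle (ι (c (s 0))) (ι (c (s k)))) ≤
      ENNReal.ofReal (1 + ε) * len g c (s 0) (s k) := by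
    intro k
    induction k with
    | zero =>
      intro _
      have : angle (ι (c (s 0))) (ι (c (s 0))) = 0 := by
        apply angle_self
        intro h0
        have := hι (c (s 0))
        rw [h0, norm_zero] at this
        linarith
      rw [this]
      simp
    | succ k ih =>
      intro hk
      have ih' := ih (by omega)
      have m1 := hsmem k (by omega)
      have m2 := hsmem (k + 1) hk
      have h4 : ‖ι (c (s k)) - ι (c (s (k + 1)))‖ < δ := by
        have := hη' (s k) m1 (s (k + 1)) m2 (by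
          rw [Real.dist_eq, abs_sub_comm, abs_of_nonneg (by linarith [hsmono k])]
          simp only [hs]
          push_cast
          linarith)
        rwa [dist_eq_norm] at this
      have h5 := hδ' _ _ (hι (c (s k))) (hι (c (s (k + 1)))) h4
      have h6 : ENNReal.ofReal ‖ι (c (s k)) - ι (c (s (k + 1)))‖ ≤ len g c (s k) (s (k + 1)) :=
        (h.chord_le _ _).trans (dist_le_len g (hc.mono (Icc_subset_Icc m1.1 m2.2)) (hsmono k))
      have hs0k : s 0 ≤ s k := by rw [hs0]; exact m1.1
      rw [← len_add g c hs0k (hsmono k), mul_add]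
      calc ENNReal.ofReal (R * angle (ι (c (s 0))) (ι (c (s (k + 1)))))
          ≤ ENNReal.ofReal (R * angle (ι (c (s 0))) (ι (c (s k))) +
              R * angle (ι (c (s k))) (ι (c (s (k + 1))))) := by
            apply ENNReal.ofReal_le_ofReal
            rw [← mul_add]
            exact mul_le_mul_of_nonneg_left (angle_le_angle_add_angle _ _ _) hR.le
        _ ≤ ENNReal.ofReal (R * angle (ι (c (s 0))) (ι (c (s k)))) +
              ENNReal.ofReal (R * angle (ι (c (s k))) (ι (c (s (k + 1))))) :=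
            ENNReal.ofReal_add_le
        _ ≤ ENNReal.ofReal (1 + ε) * len g c (s 0) (s k) +
              ENNReal.ofReal (1 + ε) * len g c (s k) (s (k + 1)) := by
            gcongr
            refine (ENNReal.ofReal_le_ofReal h5).trans ?_
            rw [ENNReal.ofReal_mul (by positivity)]
            gcongr
  have := key n le_rfl
  rwa [hs0, hsn] at this

/-- the distance is at least the angle -/
lemma IsImm.angle_le_dist (h : IsImm g ι) {R : ℝ} (hR : 0 < R) (hι : ∀ x, ‖ι x‖ = R) (x y : M) :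
    ENNReal.ofReal (R * angle (ι x) (ι y)) ≤ dist g x y := by
  apply le_of_forall_gt
  intro r hr
  obtain ⟨c, h0, h1, hc, hlt⟩ := exists_path g hr
  refine lt_of_le_of_lt ?_ hlt
  have := h.angle_le_len hR hι zero_le_one hc
  rwa [h0, h1] at this

end Pool.Agent.Y503.HC
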