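import Pool.Agent.Y503.HC.QMetric2

/-! The Riemannian quotient by a finite group of isometries acting freely. -/

set_option autoImplicit false

open scoped Manifold ContDiff Topology ENNReal
open Set Manifold

noncomputable section

namespace Pool.Agent.Y503.HC

variable {E : Type} [NormedAddCommGroup E] [NormedSpace ℝ E] [FiniteDimensional ℝ E]
  {H : Type} [TopologicalSpace H] {I : ModelWithCorners ℝ E H} [I.Boundaryless]
  {M : Type} [TopologicalSpace M] [ChartedSpace H M] [IsManifold I ∞ M]
  [T2Space M] [LocallyCompactSpace M]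

/-- a finite group of isometries acting freely has a Riemannian quotient -/
theorem exists_quotient (g : Metric I M) (Γ : Type) [Group Γ] [Finite Γ] [MulAction Γ M]
    (hiso : ∀ γ : Γ, ∃ f : Diffeomorph I I M M ∞, IsIsometry g f ∧ ∀ x, f x = γ • x)
    (hfree : ∀ (γ : Γ) (x : M), γ • x = x → γ = 1) :
    ∃ (N : Type) (_ : TopologicalSpace N) (_ : ChartedSpace H N) (_ : IsManifold I ∞ N)
      (_ : T2Space N) (g' : Metric I N) (p : M → N), IsQuotient Γ g g' p := by
  have hcont : ContinuousConstSMul Γ M := by
    refine ⟨fun γ => ?_⟩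
    obtain ⟨f, -, hf⟩ := hiso γ
    have : (fun x : M => γ • x) = f := (funext hf).symm
    rw [this]
    exact f.contMDiff.continuous
  have hcancel : IsCancelSMul Γ M := isCancelSMul_iff_eq_one_of_smul_eq.2 hfree
  have hprop : ProperlyDiscontinuousSMul Γ M := inferInstance
  set p : M → MulAction.orbitRel.Quotient Γ M := Quotient.mk _ with hp
  have hcov : IsCoveringMap p :=
    isQuotientCoveringMap_quotientMk_of_properlyDiscontinuousSMul.isCoveringMap
  have hs : Function.Surjective p := Quotient.mk_surjective
  have hf : IsLocalHomeomorph p := hcov.isLocalHomeomorph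
  have hfib : ∀ x y : M, p x = p y ↔ ∃ γ : Γ, γ • x = y := by
    intro x y
    rw [eq_comm, hp, Quotient.eq]
    exact Iff.rfl
  have hg : GDeck g p := by
    intro x y hxy
    obtain ⟨γ, hγ⟩ := (hfib x y).1 hxy
    obtain ⟨f, hf1, hf2⟩ := hiso γ
    refine ⟨f, f.contMDiff, by rw [hf2, hγ], ?_, hf1⟩
    intro z
    rw [eq_comm, hfib]
    exact ⟨γ, (hf2 z).symm⟩
  letI cs : ChartedSpace H (MulAction.orbitRel.Quotient Γ M) := hf.chartedSpace hs
  haveI hman : IsManifold I ∞ (MulAction.orbitRel.Quotient Γ M) :=
    quot_isManifold hf hs hg.deck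
  have hc : ∀ q : MulAction.orbitRel.Quotient Γ M, ∃ x : M, p x = q ∧
      chartAt H q = (hf.localInverseAt x).trans (chartAt H x) :=
    fun q => ⟨hs.hasRightInverse.choose q, hs.hasRightInverse.choose_spec q, rfl⟩
  have hc' : ∀ q : MulAction.orbitRel.Quotient Γ M, ∃ x : M,
      chartAt H q = (hf.localInverseAt x).trans (chartAt H x) :=
    fun q => let ⟨x, _, h⟩ := hc q; ⟨x, h⟩
  have ht2 : T2Space (MulAction.orbitRel.Quotient Γ M) := inferInstance
  refine ⟨MulAction.orbitRel.Quotient Γ M, inferInstance, cs, hman, ht2,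
    metricN hf hs hc hg, p, ?_⟩
  exact
    { isometries := hiso
      free := hfree
      proper := hprop
      surjective := hs
      covering := hcov
      localDiffeo := f_localDiffeo hf hg.deck hc'
      fibre := hfib
      induced := innerN_induced hf hs hc' hg }

end Pool.Agent.Y503.HC
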