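import Pool.Agent.Y503.HC.Len

/-! Isometries of the quotient lift to isometries of a simply connected covering. -/

set_option autoImplicit false

open scoped Manifold ContDiff Topology ENNReal
open Set Bundle Bornology Filter Manifold MeasureTheory

noncomputable section

namespace Pool.Agent.Y503.HC

variable {E : Type} [NormedAddCommGroup E] [NormedSpace ℝ E] {H : Type} [TopologicalSpace H]
  {I : ModelWithCorners ℝ E H}
  {M : Type} [TopologicalSpace M] [ChartedSpace H M] [IsManifold I ∞ M]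
  {N : Type} [TopologicalSpace N] [ChartedSpace H N] [IsManifold I ∞ N]
  {g : Metric I M} {g' : Metric I N} {p : M → N}

/-- a continuous lift of a smooth map is smooth -/
lemma lift_smooth (hp : IsLocalDiffeomorph I I ∞ p) {Φ : N → N} (hΦ : ContMDiff I I ∞ Φ)
    {ψ : M → M} (hψ : Continuous ψ) (h : ∀ x, p (ψ x) = Φ (p x)) : ContMDiff I I ∞ ψ := by
  intro x
  have hl := hp (ψ x)
  have h1 : ContMDiffAt I I ∞ hl.localInverse (p (ψ x)) := hl.localInverse_contMDiffAt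
  have h2 : ContMDiffAt I I ∞ (fun y => Φ (p y)) x := (hΦ (p x)).comp x (hp.contMDiff x)
  have h1' : ContMDiffAt I I ∞ hl.localInverse (Φ (p x)) := by rw [← h x]; exact h1
  have h3 : ContMDiffAt I I ∞ (fun y => hl.localInverse (Φ (p y))) x :=
    ContMDiffAt.comp (I' := I) (M' := N) (g := hl.localInverse) (f := fun y => Φ (p y)) x h1' h2
  refine h3.congr_of_eventuallyEq ?_
  have : ∀ᶠ y in 𝓝 x, ψ y ∈ hl.localInverse.target :=
    hψ.continuousAt.eventually (hl.localInverse.open_target.mem_nhds hl.localInverse_mem_target)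
  filter_upwards [this] with y hy
  rw [← h y, hl.localInverse_left_inv hy]

/-- the lift of an isometry preserves the metric -/
lemma lift_iso (hp : IsLocalDiffeomorph I I ∞ p)
    (hind : ∀ (x : M) (v w : TangentSpace I x),
      g'.inner (p x) (mfderiv I I p x v) (mfderiv I I p x w) = g.inner x v w)
    {Φ : Diffeomorph I I N N ∞} (hΦ : IsIsometry g' Φ)
    {ψ : M → M} (hψ : ContMDiff I I ∞ ψ) (h : ∀ x, p (ψ x) = Φ (p x))
    (x : M) (v : TangentSpace I x) :
    g.inner (ψ x) (mfderiv I I ψ x v) (mfderiv I I ψ x v) = g.inner x v v := by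
  have d1 : MDifferentiableAt I I p (ψ x) := (hp.contMDiff _).mdifferentiableAt (by simp)
  have d2 : MDifferentiableAt I I ψ x := (hψ x).mdifferentiableAt (by simp)
  have d3 : MDifferentiableAt I I Φ (p x) := (Φ.contMDiff _).mdifferentiableAt (by simp)
  have d4 : MDifferentiableAt I I p x := (hp.contMDiff _).mdifferentiableAt (by simp)
  have e1 := mfderiv_comp x d1 d2
  have e2 := mfderiv_comp x d3 d4
  have e3 : p ∘ ψ = Φ ∘ p := funext h
  have e4 : ∀ u : E, (mfderiv I I (p ∘ ψ) x : E →L[ℝ] E) u = (mfderiv I I (Φ ∘ p) x : E →L[ℝ] E) u := by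
    intro u
    rw [e3]
  have e5 : ∀ u : E, (mfderiv I I p (ψ x) : E →L[ℝ] E) ((mfderiv I I ψ x : E →L[ℝ] E) u) =
      (mfderiv I I Φ (p x) : E →L[ℝ] E) ((mfderiv I I p x : E →L[ℝ] E) u) := by
    intro u
    have a1 : (mfderiv I I (p ∘ ψ) x : E →L[ℝ] E) u =
      (mfderiv I I p (ψ x) : E →L[ℝ] E) ((mfderiv I I ψ x : E →L[ℝ] E) u) :=
      congrArg (fun L : E →L[ℝ] E => L u) e1
    have a2 : (mfderiv I I (Φ ∘ p) x : E →L[ℝ] E) u =
      (mfderiv I I Φ (p x) : E →L[ℝ] E) ((mfderiv I I p x : E →L[ℝ] E) u) :=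
      congrArg (fun L : E →L[ℝ] E => L u) e2
    rw [← a1, ← a2, e4]
  have h1 := hind (ψ x) (mfderiv I I ψ x v) (mfderiv I I ψ x v)
  have h2 := hΦ (p x) (mfderiv I I p x v) (mfderiv I I p x v)
  have h3 := hind x v v
  rw [← h3, ← h2, ← h1]
  have h4 : (g'.inner (p (ψ x)) : E →L[ℝ] E →L[ℝ] ℝ)
      ((mfderiv I I p (ψ x) : E →L[ℝ] E) ((mfderiv I I ψ x : E →L[ℝ] E) v))
      ((mfderiv I I p (ψ x) : E →L[ℝ] E) ((mfderiv I I ψ x : E →L[ℝ] E) v)) =
      (g'.inner (Φ (p x)) : E →L[ℝ] E →L[ℝ] ℝ)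
      ((mfderiv I I Φ (p x) : E →L[ℝ] E) ((mfderiv I I p x : E →L[ℝ] E) v))
      ((mfderiv I I Φ (p x) : E →L[ℝ] E) ((mfderiv I I p x : E →L[ℝ] E) v)) := by
    rw [e5, h x]
  exact h4

/-- An isometry of the quotient lifts to a bijection of the simply connected covering manifold
which preserves the distances. -/
theorem exists_lift [SimplyConnectedSpace M] [LocallyPathConnectedSpace M]
    (hcov : IsCoveringMap p) (hp : IsLocalDiffeomorph I I ∞ p)
    (hind : ∀ (x : M) (v w : TangentSpace I x),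
      g'.inner (p x) (mfderiv I I p x v) (mfderiv I I p x w) = g.inner x v w)
    {Φ : Diffeomorph I I N N ∞} (hΦ : IsIsometry g' Φ) (x₀ x₁ : M) (h01 : p x₁ = Φ (p x₀)) :
    ∃ ψ : M → M, Function.Bijective ψ ∧ ψ x₀ = x₁ ∧ (∀ x, p (ψ x) = Φ (p x)) ∧
      ∀ x y, dist g (ψ x) (ψ y) = dist g x y := by
  -- the inverse is an isometry
  have hΦ' : IsIsometry g' Φ.symm := by
    intro n v w
    have d1 : MDifferentiableAt I I Φ (Φ.symm n) := (Φ.contMDiff _).mdifferentiableAt (by simp)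
    have d2 : MDifferentiableAt I I Φ.symm n := (Φ.symm.contMDiff _).mdifferentiableAt (by simp)
    have e1 := mfderiv_comp n d1 d2
    have e2 : (Φ ∘ Φ.symm : N → N) = id := by funext m; simp
    have e3 : ∀ u : E, (mfderiv I I Φ (Φ.symm n) : E →L[ℝ] E)
        ((mfderiv I I Φ.symm n : E →L[ℝ] E) u) = u := by
      intro u
      have a1 : (mfderiv I I (Φ ∘ Φ.symm) n : E →L[ℝ] E) u =
        (mfderiv I I Φ (Φ.symm n) : E →L[ℝ] E) ((mfderiv I I Φ.symm n : E →L[ℝ] E) u) :=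
        congrArg (fun L : E →L[ℝ] E => L u) e1
      rw [← a1, e2]
      have : (mfderiv I I (id : N → N) n : E →L[ℝ] E) u = u := by
        rw [mfderiv_id]; rfl
      exact this
    have h1 := hΦ (Φ.symm n) (mfderiv I I Φ.symm n v) (mfderiv I I Φ.symm n w)
    rw [← h1]
    have h4 : (g'.inner (Φ (Φ.symm n)) : E →L[ℝ] E →L[ℝ] ℝ)
      ((mfderiv I I Φ (Φ.symm n) : E →L[ℝ] E) ((mfderiv I I Φ.symm n : E →L[ℝ] E) v))
      ((mfderiv I I Φ (Φ.symm n) : E →L[ℝ] E) ((mfderiv I I Φ.symm n : E →L[ℝ] E) w)) =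
      (g'.inner n : E →L[ℝ] E →L[ℝ] ℝ) v w := by
      rw [e3, e3]
      exact inner_congr' g' (Φ.apply_symm_apply n) v w
    exact h4
  obtain ⟨ψ, ⟨hψ0, hψ⟩, -⟩ := hcov.existsUnique_continuousMap_lifts
    (⟨fun x => Φ (p x), Φ.continuous.comp hcov.continuous⟩ : C(M, N)) x₀ x₁ h01
  obtain ⟨ψ', ⟨hψ'0, hψ'⟩, -⟩ := hcov.existsUnique_continuousMap_lifts
    (⟨fun x => Φ.symm (p x), Φ.symm.continuous.comp hcov.continuous⟩ : C(M, N)) x₁ x₀ (by
      show p x₀ = Φ.symm (p x₁)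
      rw [h01, Φ.symm_apply_apply])
  have hψp : ∀ x, p (ψ x) = Φ (p x) := fun x => congrFun hψ x
  have hψ'p : ∀ x, p (ψ' x) = Φ.symm (p x) := fun x => congrFun hψ' x
  have huniq : ∀ χ : C(M, M), ∀ x : M, χ x = x → (∀ y, p (χ y) = p y) → ∀ y, χ y = y := by
    intro χ x hx hy y
    obtain ⟨χ', -, hu⟩ := hcov.existsUnique_continuousMap_lifts
      (⟨p, hcov.continuous⟩ : C(M, N)) x x rfl
    have a1 := hu χ ⟨hx, funext hy⟩
    have a2 := hu (ContinuousMap.id M) ⟨rfl, rfl⟩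
    rw [a1, ← a2]
    rfl
  have inv1 : ∀ y, ψ' (ψ y) = y := by
    apply huniq (ψ'.comp ψ) x₀
    · show ψ' (ψ x₀) = x₀
      rw [hψ0, hψ'0]
    · intro y
      show p (ψ' (ψ y)) = p y
      rw [hψ'p, hψp, Φ.symm_apply_apply]
  have inv2 : ∀ y, ψ (ψ' y) = y := by
    apply huniq (ψ.comp ψ') x₁
    · show ψ (ψ' x₁) = x₁
      rw [hψ'0, hψ0]
    · intro y
      show p (ψ (ψ' y)) = p y
      rw [hψp, hψ'p, Φ.apply_symm_apply]
  have s1 := lift_smooth hp Φ.contMDiff ψ.continuous hψp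
  have s2 := lift_smooth hp Φ.symm.contMDiff ψ'.continuous hψ'p
  have i1 := lift_iso hp hind hΦ s1 hψp
  have i2 := lift_iso hp hind hΦ' s2 hψ'p
  refine ⟨ψ, ⟨Function.LeftInverse.injective inv1, Function.RightInverse.surjective inv2⟩, hψ0,
    hψp, fun x y => le_antisymm (dist_map_le g g s1 i1 x y) ?_⟩
  have := dist_map_le g g s2 i2 (ψ x) (ψ y)
  rwa [inv1, inv1] at this

end Pool.Agent.Y503.HC
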