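import Pool.Agent.Y503.HC.Model
import Pool.Agent.Helper206.BoxS.SphereSC

/-! `S³ × S²` is simply connected. -/

set_option autoImplicit false

open Module

namespace Pool.Agent.Y503.HC

theorem simplyConnected_prod {X Y : Type} [TopologicalSpace X] [TopologicalSpace Y]
    [SimplyConnectedSpace X] [SimplyConnectedSpace Y] : SimplyConnectedSpace (X × Y) := by
  rw [simply_connected_iff_paths_homotopic]
  refine ⟨inferInstance, ?_⟩
  rintro ⟨a, b⟩ ⟨c, d⟩
  constructor
  intro p q
  rw [← Path.Homotopic.prod_projLeft_projRight p, ← Path.Homotopic.prod_projLeft_projRight q]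
  congr 1 <;> exact Subsingleton.elim _ _

theorem simplyConnected_MM : SimplyConnectedSpace MM := by
  have h1 : SimplyConnectedSpace S3 :=
    Pool.Agent.Helper206.BoxS.Sph.simplyConnected_sphere (by
      rw [Quaternion.finrank_eq_four]; norm_num)
  have h2 : SimplyConnectedSpace S2 :=
    Pool.Agent.Helper206.BoxS.Sph.simplyConnected_sphere (by
      rw [finrank_euclideanSpace]; norm_num)
  exact simplyConnected_prod

end Pool.Agent.Y503.HC
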