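import Pool.Agent.Y503.HC.ZChar

/-! Metric characterisation of the pair of points `± Z(x)`, continued. -/

set_option autoImplicit false

open scoped Manifold ContDiff Topology ENNReal Quaternion
open Set Module InnerProductGeometry Filter Real

noncomputable section

namespace Pool.Agent.Y503.HC

/-- the imaginary unit quaternion `u` with `F₂ = F₁ u` -/
def uq (F : VV) : ℍ[ℝ] := star F.fst * F.snd

lemma uq_re {F : VV} (hF : F ∈ V2) : (uq F).re = 0 := by
  unfold uq; rw [← inner_eq_re]; exact hF.2.2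

lemma uq_norm {F : VV} (hF : F ∈ V2) : ‖uq F‖ = 1 := by
  unfold uq; rw [norm_mul, norm_star, hF.1, hF.2.1, one_mul]

lemma mul_uq {F : VV} (hF : F ∈ V2) : F.fst * uq F = F.snd := by
  unfold uq; rw [← mul_assoc, self_mul_star_unit hF.1, one_mul]

/-- description of the midpoints of a point and its antipode -/
theorem Mid.cases {x y : MM} (h : Mid x y) :
    (∃ a : ℍ[ℝ], a.re = 0 ∧ ‖a‖ = 1 ∧ emb y = lm a (emb x)) ∨
    (∃ b : ℍ[ℝ], b.re = 0 ∧ ‖b‖ = 1 ∧ emb y = rm (emb x) b) := by
  have hF := emb_mem x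
  have hG := emb_mem y
  obtain ⟨c1, c2, c3⟩ := h.conds
  generalize emb x = F at *
  generalize emb y = G at *
  have hv := hF.1
  set v := F.fst with hvdef
  set u := uq F with hu
  have eF : F.snd = v * u := (mul_uq hF).symm
  set p := star v * G.fst with hp
  set q := star v * G.snd with hq
  have eG1 : G.fst = v * p := by rw [hp, ← mul_assoc, self_mul_star_unit hv, one_mul]
  have eG2 : G.snd = v * q := by rw [hq, ← mul_assoc, self_mul_star_unit hv, one_mul]
  have hp1 : ‖p‖ = 1 := by rw [hp, norm_mul, norm_star, hv, hG.1, one_mul]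
  have hq1 : ‖q‖ = 1 := by rw [hq, norm_mul, norm_star, hv, hG.2.1, one_mul]
  have hpq : inner ℝ p q = 0 := by
    rw [← inner_mul_left' hv, ← eG1, ← eG2]; exact hG.2.2
  have hp0 : p.re = 0 := by
    rw [hp, ← inner_eq_re]; exact c1
  have huq : inner ℝ u q = 0 := by
    rw [← inner_mul_left' hv, ← eG2, ← eF]; exact c2
  have h3 : q.re + inner ℝ p u = 0 := by
    rw [hq, ← inner_eq_re, ← inner_mul_left' hv p u, ← eG1, ← eF]; exact c3
  rcases quat_alg (uq_re hF) (uq_norm hF) hp0 hp1 hq1 hpq huq h3 with h | h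
  · right
    refine ⟨p, hp0, hp1, ?_⟩
    apply vv_ext
    · rw [rm_fst, ← hvdef, eG1]
    · rw [rm_snd, eG2, h, eF, mul_assoc, hu]
  · left
    refine ⟨v * p * star v, ?_, ?_, ?_⟩
    · rw [re_mul_comm, ← mul_assoc, star_mul_self_unit hv, one_mul, hp0]
    · rw [norm_mul, norm_mul, norm_star, hv, hp1]; norm_num
    · apply vv_ext
      · rw [lm_fst, ← hvdef, eG1, mul_assoc, star_mul_self_unit hv, mul_one]
      · rw [lm_snd, eG2, h, eF]
        simp only [mul_assoc]
        rw [← mul_assoc (star v) v u, star_mul_self_unit hv, one_mul]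

/-- the field `Z` -/
def Zq (F : VV) : VV := pr F.snd (-F.fst)

lemma sq_neg_one {u : ℍ[ℝ]} (h0 : u.re = 0) (h1 : ‖u‖ = 1) : u * u = -1 := by
  have h2 := norm_sq_q u
  rw [h1, h0] at h2
  ext
  · simp [h0]; linarith
  · simp [h0]; ring
  · simp [h0]; ring
  · simp [h0]; ring

lemma Zq_rm {F : VV} (hF : F ∈ V2) : Zq F = rm F (uq F) := by
  apply vv_ext
  · rw [rm_fst, mul_uq hF]; rfl
  · rw [rm_snd]
    show -F.fst = _
    rw [← mul_uq hF, mul_assoc, sq_neg_one (uq_re hF) (uq_norm hF), mul_neg, mul_one]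

lemma Zq_lm {F : VV} (hF : F ∈ V2) : Zq F = lm (F.snd * star F.fst) F := by
  apply vv_ext
  · rw [lm_fst, mul_assoc, star_mul_self_unit hF.1, mul_one]; rfl
  · rw [lm_snd, mul_assoc]
    show -F.fst = F.snd * uq F
    rw [← mul_uq hF, mul_assoc, sq_neg_one (uq_re hF) (uq_norm hF), mul_neg, mul_one]

/-- the metric property of `± Z(x)` -/
def IsZ (x y : MM) : Prop :=
  Mid x y ∧ ∀ y', Mid x y' → dist gM y y' + dist gM y' (ng y) = ENNReal.ofReal (√2 * π)

theorem isZ_of_eq {x y : MM} (h : emb y = Zq (emb x)) : IsZ x y := by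
  have hF := emb_mem x
  have hw0 : ((emb x).snd * star (emb x).fst).re = 0 := by
    rw [re_mul_comm, ← inner_eq_re]; exact hF.2.2
  have hw1 : ‖(emb x).snd * star (emb x).fst‖ = 1 := by
    rw [norm_mul, norm_star, hF.1, hF.2.1, one_mul]
  refine ⟨mid_rm (uq_re hF) (uq_norm hF) (by rw [h, Zq_rm hF]), ?_⟩
  intro y' hy'
  rcases hy'.cases with ⟨a, a0, a1, ha⟩ | ⟨b, b0, b1, hb⟩
  · apply sum_lm (a := a * star ((emb x).snd * star (emb x).fst))
    · rw [norm_mul, norm_star, a1, hw1, one_mul]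
    · rw [h, Zq_lm hF, ha]
      apply vv_ext
      · rw [lm_fst, lm_fst, lm_fst, mul_assoc a, ← mul_assoc (star _) _ (emb x).fst,
          star_mul_self_unit hw1, one_mul]
      · rw [lm_snd, lm_snd, lm_snd, mul_assoc a, ← mul_assoc (star _) _ (emb x).snd,
          star_mul_self_unit hw1, one_mul]
  · apply sum_rm (b := star (uq (emb x)) * b)
    · rw [norm_mul, norm_star, b1, uq_norm hF, one_mul]
    · rw [h, Zq_rm hF, hb]
      apply vv_ext
      · rw [rm_fst, rm_fst, rm_fst, ← mul_assoc, mul_assoc (emb x).fst,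
          self_mul_star_unit (uq_norm hF), mul_one]
      · rw [rm_snd, rm_snd, rm_snd, ← mul_assoc, mul_assoc (emb x).snd,
          self_mul_star_unit (uq_norm hF), mul_one]

lemma sum_mid {y y' : MM} (h0 : inner ℝ (emb y) (emb y') = 0)
    (hs : dist gM y y' + dist gM y' (ng y) = ENNReal.ofReal (√2 * π)) :
    (√2)⁻¹ • (emb y + emb y') ∈ V2 := by
  apply mid_mem h0
  by_contra hlt
  rw [not_le] at hlt
  have h1 := angle_le y' (ng y)
  rw [angle_ng, angle_eq, h0, zero_div, arccos_zero] at h1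
  have h2 : ENNReal.ofReal (√2 * (π / 2)) + ENNReal.ofReal (√2 * (π - π / 2)) <
      dist gM y y' + dist gM y' (ng y) :=
    ENNReal.add_lt_add_of_lt_of_le ENNReal.ofReal_ne_top hlt h1
  rw [hs, ← ENNReal.ofReal_add (by positivity) (by
    have := sqrt2_pos; have := pi_pos
    apply mul_nonneg <;> linarith)] at h2
  have h3 : √2 * (π / 2) + √2 * (π - π / 2) = √2 * π := by ring
  rw [h3] at h2
  exact lt_irrefl _ h2

/-- perpendicular directions -/
lemma exists_perp {p u : ℍ[ℝ]} (hp0 : p.re = 0) (hp : ‖p‖ = 1) (hu0 : u.re = 0) (hu : ‖u‖ = 1) :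
    p = u ∨ p = -u ∨ ∃ r : ℍ[ℝ], r.re = 0 ∧ ‖r‖ = 1 ∧ inner ℝ r u = 0 ∧ inner ℝ r p ≠ 0 := by
  set s : ℝ := inner ℝ p u with hs
  set r₀ : ℍ[ℝ] := p - s • u with hr
  by_cases h : r₀ = 0
  · have h1 : p = s • u := sub_eq_zero.1 h
    have h2 : |s| = 1 := by
      have := hp
      rw [h1, norm_smul, hu, mul_one, Real.norm_eq_abs] at this
      exact this
    rcases eq_or_eq_neg_of_abs_eq h2 with h3 | h3
    · left; rw [h1, h3, one_smul]
    · right; left; rw [h1, h3, neg_smul, one_smul]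
  · right; right
    have hn : 0 < ‖r₀‖ := norm_pos_iff.2 h
    have i1 : inner ℝ r₀ u = 0 := by
      rw [hr, inner_sub_left, inner_smul_left, real_inner_self_eq_norm_sq, hu, conj_trivial, ← hs]
      ring
    have i2 : inner ℝ r₀ p = ‖r₀‖ ^ 2 := by
      have : p = r₀ + s • u := by rw [hr]; abel
      nth_rw 1 [this]
      rw [inner_add_right, inner_smul_right, i1, real_inner_self_eq_norm_sq]
      ring
    refine ⟨‖r₀‖⁻¹ • r₀, ?_, ?_, ?_, ?_⟩
    · rw [hr]; simp [hp0, hu0]
    · rw [norm_smul, norm_inv, norm_norm, inv_mul_cancel₀ hn.ne']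
    · rw [inner_smul_left, i1, mul_zero]
    · rw [inner_smul_left, i2, conj_trivial]
      positivity

lemma inner_alg {p u b : ℍ[ℝ]} (hp0 : p.re = 0) (hu0 : u.re = 0) (hu : ‖u‖ = 1) (hb0 : b.re = 0) :
    inner ℝ p b + inner ℝ (p * u) (u * b) = 2 * (inner ℝ p u * inner ℝ u b) := by
  have nu := norm_sq_q u
  rw [hu, hu0] at nu
  simp only [inner_q, Quaternion.re_mul, Quaternion.imI_mul, Quaternion.imJ_mul,
    Quaternion.imK_mul, hp0, hu0, hb0]
  linear_combination (p.imI * b.imI + p.imJ * b.imJ + p.imK * b.imK) * nu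

lemma perp_case {x y y' : MM} {p b : ℍ[ℝ]} (p0 : p.re = 0) (b0 : b.re = 0)
    (hy1 : (emb y).fst = (emb x).fst * p) (hy2 : (emb y).snd = (emb x).fst * (p * uq (emb x)))
    (hy' : emb y' = rm (emb x) b)
    (hs : dist gM y y' + dist gM y' (ng y) = ENNReal.ofReal (√2 * π) ∨
      dist gM y' y + dist gM y (ng y') = ENNReal.ofReal (√2 * π))
    (h : inner ℝ p (uq (emb x)) * inner ℝ (uq (emb x)) b = 0) : inner ℝ p b = 0 := by
  have hF := emb_mem x
  have hv := hF.1
  have hy'2 : (emb y').snd = (emb x).fst * (uq (emb x) * b) := by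
    rw [hy', rm_snd, ← mul_assoc, mul_uq hF]
  have hy'1 : (emb y').fst = (emb x).fst * b := by rw [hy', rm_fst]
  have h1 : inner ℝ (emb y) (emb y') = 0 := by
    rw [inner_vv, hy1, hy2, hy'1, hy'2, inner_mul_left' hv, inner_mul_left' hv,
      inner_alg p0 (uq_re hF) (uq_norm hF) b0, h, mul_zero]
  have h2 : inner ℝ (emb y).fst (emb y').fst = 0 := by
    rcases hs with hs | hs
    · exact (mid_conds (emb_mem y) (emb_mem y') (sum_mid h1 hs)).1
    · rw [real_inner_comm]
      exact (mid_conds (emb_mem y') (emb_mem y) (sum_mid (by rw [real_inner_comm]; exact h1) hs)).1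
  rwa [hy1, hy'1, inner_mul_left' hv] at h2

/-- the converse -/
theorem eq_of_isZ {x y : MM} (h : IsZ x y) : emb y = Zq (emb x) ∨ emb y = -Zq (emb x) := by
  have hF := emb_mem x
  have hv := hF.1
  have u0 := uq_re hF
  have u1 := uq_norm hF
  rcases h.1.cases with ⟨a, a0, a1, ha⟩ | ⟨b, b0, b1, hb⟩
  · set v := (emb x).fst with hvdef
    set p := star v * a * v with hp
    have p0 : p.re = 0 := by
      rw [hp, re_mul_comm, ← mul_assoc, self_mul_star_unit hv, one_mul, a0]
    have p1 : ‖p‖ = 1 := by rw [hp, norm_mul, norm_mul, norm_star, hv, a1]; norm_num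
    have ev : a * v = v * p := by
      rw [hp, ← mul_assoc, ← mul_assoc, self_mul_star_unit hv, one_mul]
    have hy1 : (emb y).fst = v * p := by rw [ha, lm_fst, ev]
    have hy2 : (emb y).snd = v * (p * uq (emb x)) := by
      rw [ha, lm_snd, ← mul_uq hF, ← mul_assoc, ev, mul_assoc]
    rcases exists_perp p0 p1 u0 u1 with hc | hc | ⟨r, r0, r1, r2, r3⟩
    · left
      rw [Zq_rm hF]
      apply vv_ext
      · rw [hy1, rm_fst, hc]
      · rw [hy2, rm_snd, hc, ← mul_assoc, mul_uq hF]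
    · right
      rw [Zq_rm hF]
      apply vv_ext
      · rw [hy1, WithLp.neg_fst, rm_fst, hc, mul_neg]
      · rw [hy2, WithLp.neg_snd, rm_snd, hc, neg_mul, mul_neg, ← mul_assoc, mul_uq hF]
    · exfalso
      have hm := rm_V2 r1 hF
      have hy' : emb (mk _ hm) = rm (emb x) r := emb_mk _ hm
      have := perp_case p0 r0 hy1 hy2 hy' (Or.inl (h.2 _ (mid_rm r0 r1 hy')))
        (by rw [real_inner_comm r, r2, mul_zero])
      exact r3 (by rw [real_inner_comm]; exact this)
  · rcases exists_perp b0 b1 u0 u1 with hc | hc | ⟨r, r0, r1, r2, r3⟩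
    · left
      rw [Zq_rm hF, hb, hc]
    · right
      rw [Zq_rm hF, hb, hc]
      apply vv_ext
      · rw [rm_fst, WithLp.neg_fst, rm_fst, mul_neg]
      · rw [rm_snd, WithLp.neg_snd, rm_snd, mul_neg]
    · exfalso
      set v := (emb x).fst with hvdef
      set a := v * r * star v with ha
      have a0 : a.re = 0 := by
        rw [ha, re_mul_comm, ← mul_assoc, star_mul_self_unit hv, one_mul, r0]
      have a1 : ‖a‖ = 1 := by rw [ha, norm_mul, norm_mul, norm_star, hv, r1]; norm_num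
      have ev : a * v = v * r := by
        rw [ha, mul_assoc, star_mul_self_unit hv, mul_one]
      have hm := lm_V2 a1 hF
      have hy' : emb (mk _ hm) = lm a (emb x) := emb_mk _ hm
      have hy1 : (emb (mk _ hm)).fst = v * r := by rw [hy', lm_fst, ev]
      have hy2 : (emb (mk _ hm)).snd = v * (r * uq (emb x)) := by
        rw [hy', lm_snd, ← mul_uq hF, ← mul_assoc, ev, mul_assoc]
      have := perp_case r0 b0 hy1 hy2 hb (Or.inr (h.2 _ (mid_lm a0 a1 hy')))
        (by rw [r2, zero_mul])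
      exact r3 this

end Pool.Agent.Y503.HC
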