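import Pool.Agent.Y503.HC.Weak
import Pool.Agent.Y503.HC.ZChar2
import Pool.Agent.Y503.HC.FinQuot
import Pool.Agent.Y503.HC.Topo
import Pool.Agent.Y503.HC.Lift

/-! The cyclic group of order four generated by the quaternion `i`, acting on the Stiefel manifold
by left multiplications. -/

set_option autoImplicit false

open scoped Manifold ContDiff Topology ENNReal Quaternion
open Set Module Manifold Real

noncomputable section

namespace Pool.Agent.Y503.HC

lemma qi_mul_qi : qi * qi = -1 := sq_neg_one qi_re norm_qi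

lemma inv_unit {a : ℍ[ℝ]} (ha : ‖a‖ = 1) : a⁻¹ = star a :=
  inv_eq_of_mul_eq_one_right (self_mul_star_unit ha)

lemma star_qi : star qi = -qi := by
  ext <;> simp

/-- the group `{1, -1, i, -i}` -/
def Gam : Subgroup S3 where
  carrier := {a | (a : ℍ[ℝ]) = 1 ∨ (a : ℍ[ℝ]) = -1 ∨ (a : ℍ[ℝ]) = qi ∨ (a : ℍ[ℝ]) = -qi}
  mul_mem' := by
    intro a b ha hb
    simp only [mem_setOf_eq, Metric.unitSphere.coe_mul] at ha hb ⊢
    rcases ha with ha | ha | ha | ha <;> rcases hb with hb | hb | hb | hb <;>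
      simp [ha, hb, qi_mul_qi]
  one_mem' := Or.inl rfl
  inv_mem' := by
    intro a ha
    simp only [mem_setOf_eq, Metric.unitSphere.coe_inv] at ha ⊢
    rw [inv_unit (norm_S3 a)]
    rcases ha with ha | ha | ha | ha <;> simp [ha, star_qi]

lemma Gam_cases (a : Gam) : ((a : S3) : ℍ[ℝ]) = 1 ∨ ((a : S3) : ℍ[ℝ]) = -1 ∨
    ((a : S3) : ℍ[ℝ]) = qi ∨ ((a : S3) : ℍ[ℝ]) = -qi := a.2

instance : Finite Gam := by
  have hfin : ({1, -1, qi, -qi} : Set ℍ[ℝ]).Finite := by simp
  have : Finite ({1, -1, qi, -qi} : Set ℍ[ℝ]) := hfin.to_subtype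
  refine Finite.of_injective
    (fun a : Gam => (⟨((a : S3) : ℍ[ℝ]), by simpa using Gam_cases a⟩ :
      ({1, -1, qi, -qi} : Set ℍ[ℝ]))) ?_
  intro a b h
  have h' : ((a : S3) : ℍ[ℝ]) = ((b : S3) : ℍ[ℝ]) :=
    congrArg (fun z : ({1, -1, qi, -qi} : Set ℍ[ℝ]) => (z : ℍ[ℝ])) h
  exact Subtype.ext (Subtype.ext h')

/-- the action by left multiplications -/
@[instance_reducible]
def actGam : MulAction Gam MM where
  smul a x := ((a : S3) * x.1, x.2)
  one_smul _ := Prod.ext (one_mul _) rfl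
  mul_smul _ _ _ := Prod.ext (mul_assoc _ _ _) rfl

attribute [local instance] actGam

lemma smul_def (a : Gam) (x : MM) : a • x = ((a : S3) * x.1, x.2) := rfl

lemma emb_smul (a : Gam) (x : MM) : emb (a • x) = lm ((a : S3) : ℍ[ℝ]) (emb x) := by
  apply vv_ext
  · rfl
  · show ((a : S3) : ℍ[ℝ]) * (x.1 : ℍ[ℝ]) * im (x.2 : E3) =
      ((a : S3) : ℍ[ℝ]) * ((x.1 : ℍ[ℝ]) * im (x.2 : E3))
    rw [mul_assoc]

/-- left multiplication as a linear isometry -/
def Lq (a : ℍ[ℝ]) (ha : ‖a‖ = 1) : ℍ[ℝ] ≃ₗᵢ[ℝ] ℍ[ℝ] where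
  toFun q := a * q
  invFun q := star a * q
  map_add' x y := mul_add a x y
  map_smul' c x := by simp
  left_inv q := by
    show star a * (a * q) = q
    rw [← mul_assoc, star_mul_self_unit ha, one_mul]
  right_inv q := by
    show a * (star a * q) = q
    rw [← mul_assoc, self_mul_star_unit ha, one_mul]
  norm_map' q := by
    show ‖a * q‖ = ‖q‖
    rw [norm_mul, ha, one_mul]

theorem Gam_isometry (a : Gam) :
    ∃ f : Diffeomorph II II MM MM ∞, IsIsometry gM f ∧ ∀ x, f x = a • x := by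
  refine ⟨actD (pairA (Lq _ (norm_S3 (a : S3)))) (pairA_V2 _) (pairA_symm_V2 _),
    actD_isometry _ _ _, ?_⟩
  intro x
  apply emb_injective
  rw [emb_smul]
  show emb (act (pairA (Lq _ (norm_S3 (a : S3)))) (pairA_V2 _) x) = _
  rw [emb_act]
  rfl

theorem Gam_free (a : Gam) (x : MM) (h : a • x = x) : a = 1 := by
  have h1 : (a : S3) * x.1 = x.1 := congrArg Prod.fst h
  have h2 : (a : S3) = 1 := by
    have := congrArg (fun z => z * x.1⁻¹) h1
    simpa using this
  exact Subtype.ext h2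

/-- all the elements have constant displacement -/
theorem Gam_displacement (a : Gam) : ∃ d, ∀ x, dist gM x (a • x) = d :=
  ⟨_, fun x => dist_lm (norm_S3 (a : S3)) (emb_smul a x)⟩

/-- the quaternion `j` -/
def qj : ℍ[ℝ] := ⟨0, 0, 1, 0⟩

@[simp] lemma qj_re : qj.re = 0 := rfl
@[simp] lemma qj_i : qj.imI = 0 := rfl
@[simp] lemma qj_j : qj.imJ = 1 := rfl
@[simp] lemma qj_k : qj.imK = 0 := rfl

lemma pr_one_mem {q : ℍ[ℝ]} (h0 : q.re = 0) (h1 : ‖q‖ = 1) : pr 1 q ∈ V2 := by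
  refine ⟨by simp, h1, ?_⟩
  rw [pr_fst, pr_snd, inner_one_re, h0]

lemma norm_qj : ‖qj‖ = 1 := by
  apply norm_one_of_sq
  rw [norm_sq_q]; simp

/-- **the quotient is not homogeneous** -/
theorem not_homogeneous {N : Type} [TopologicalSpace N]
    [ChartedSpace (ModelProd (EuclideanSpace ℝ (Fin 3)) (EuclideanSpace ℝ (Fin 2))) N]
    [IsManifold II ∞ N] (g' : Metric II N) (p : MM → N) (hq : IsQuotient Gam gM g' p) :
    ¬ IsHomogeneous g' := by
  intro hh
  have := simplyConnected_MM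
  have : LocallyPathConnectedSpace (ModelProd (EuclideanSpace ℝ (Fin 3)) (EuclideanSpace ℝ (Fin 2))) :=
    inferInstanceAs (LocallyPathConnectedSpace
      (EuclideanSpace ℝ (Fin 3) × EuclideanSpace ℝ (Fin 2)))
  have : LocallyPathConnectedSpace MM := ChartedSpace.locallyPathConnectedSpace
    (ModelProd (EuclideanSpace ℝ (Fin 3)) (EuclideanSpace ℝ (Fin 2))) MM
  set x₀ : MM := mk (pr 1 qi) (pr_one_mem qi_re norm_qi) with hx₀
  set y₀ : MM := mk (pr 1 qj) (pr_one_mem qj_re norm_qj) with hy₀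
  have ex : emb x₀ = pr 1 qi := emb_mk _ _
  have ey : emb y₀ = pr 1 qj := emb_mk _ _
  obtain ⟨Φ, hΦ, hΦ'⟩ := hh (p x₀) (p y₀)
  obtain ⟨ψ, hbij, h0, hψ, hd⟩ :=
    exists_lift hq.covering hq.localDiffeo hq.induced hΦ x₀ y₀ hΦ'.symm
  -- points in a fibre are mapped to points in a fibre
  have hfib : ∀ (a : Gam) (z : MM), ∃ b : Gam, b • ψ z = ψ (a • z) := by
    intro a z
    have h1 : p z = p (a • z) := (hq.fibre _ _).2 ⟨a, rfl⟩
    apply (hq.fibre _ _).1
    rw [hψ, hψ, h1]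
  -- the elements of the group
  have m1 : (⟨-1, by simp⟩ : S3) ∈ Gam := Or.inr (Or.inl rfl)
  have m2 : (⟨qi, by simp [norm_qi]⟩ : S3) ∈ Gam := Or.inr (Or.inr (Or.inl rfl))
  have hne : (√2 * π) ≠ √2 * (π / 2) := by
    have h1 := sqrt2_pos
    have h2 := pi_pos
    intro h
    nlinarith [mul_pos h1 h2]
  have hpos : 0 < √2 * π := by have := sqrt2_pos; positivity
  have hpos2 : 0 < √2 * (π / 2) := by have := sqrt2_pos; positivity
  -- the antipodal map
  have hng : ∀ z, ψ (ng z) = ng (ψ z) := by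
    intro z
    have e1 : ng z = (⟨⟨-1, by simp⟩, m1⟩ : Gam) • z := by
      apply emb_injective
      rw [emb_ng, emb_smul]
      apply vv_ext <;> simp
    obtain ⟨b, hb⟩ := hfib ⟨⟨-1, by simp⟩, m1⟩ z
    rw [← e1] at hb
    have h1 : dist gM (ψ z) (b • ψ z) = ENNReal.ofReal (√2 * π) := by
      rw [hb, hd, dist_ng]
    rw [dist_lm (norm_S3 (b : S3)) (emb_smul b _)] at h1
    rw [← hb]
    apply emb_injective
    rw [emb_ng, emb_smul]
    rcases Gam_cases b with hc | hc | hc | hc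
    · exfalso
      rw [hc, Quaternion.re_one, arccos_one, mul_zero, ENNReal.ofReal_zero] at h1
      have := ENNReal.ofReal_pos.2 hpos
      exact this.ne h1
    · rw [hc]
      apply vv_ext <;> simp
    · exfalso
      rw [hc, qi_re, arccos_zero] at h1
      exact hne ((ENNReal.ofReal_eq_ofReal_iff hpos2.le hpos.le).1 h1).symm
    · exfalso
      rw [hc, Quaternion.re_neg, qi_re, neg_zero, arccos_zero] at h1
      exact hne ((ENNReal.ofReal_eq_ofReal_iff hpos2.le hpos.le).1 h1).symm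
  -- midpoints
  have hmid : ∀ z y, Mid (ψ z) (ψ y) ↔ Mid z y := by
    intro z y
    unfold Mid
    rw [← hng, hd, hd]
  have hZ : ∀ z y, IsZ z y → IsZ (ψ z) (ψ y) := by
    rintro z y ⟨h1, h2⟩
    refine ⟨(hmid z y).2 h1, ?_⟩
    intro y' hy'
    obtain ⟨y'', rfl⟩ := hbij.2 y'
    rw [← hng, hd, hd]
    exact h2 _ ((hmid z y'').1 hy')
  -- the contradiction
  set γ : Gam := ⟨⟨qi, by simp [norm_qi]⟩, m2⟩ with hγ
  have hz0 : IsZ x₀ (γ • x₀) := by
    apply isZ_of_eq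
    rw [emb_smul, ex]
    apply vv_ext
    · simp [Zq, hγ]
    · simp [Zq, hγ, qi_mul_qi]
  have hz1 := hZ _ _ hz0
  rw [h0] at hz1
  obtain ⟨b, hb⟩ := hfib γ x₀
  rw [h0] at hb
  rw [← hb] at hz1
  have hz2 := eq_of_isZ hz1
  rw [emb_smul, ey] at hz2
  have hz3 : ((b : S3) : ℍ[ℝ]) = qj ∨ ((b : S3) : ℍ[ℝ]) = -qj := by
    rcases hz2 with h | h
    · left
      have := congrArg (fun X : VV => X.fst) h
      simpa [Zq] using this
    · right
      have := congrArg (fun X : VV => X.fst) h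
      simpa [Zq] using this
  have hJ : ((b : S3) : ℍ[ℝ]).imJ ≠ 0 := by
    rcases hz3 with h | h <;> rw [h] <;> simp
  apply hJ
  rcases Gam_cases b with hc | hc | hc | hc <;> rw [hc] <;> simp

end Pool.Agent.Y503.HC
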