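import Pool.Agent.Y503.HC.Model
import Pool.Agent.H839R2.Geo.Embed

/-! The metric of the Stiefel manifold and the isometries induced by linear isometries. -/

set_option autoImplicit false

open scoped Manifold ContDiff Topology ENNReal Quaternion
open Set Bundle Bornology Filter Manifold MeasureTheory Module InnerProductGeometry

noncomputable section

namespace Pool.Agent.Y503.HC

/-- the metric induced by the embedding -/
def gM : Metric II MM :=
  Pool.Agent.H839R2.Geo.embMetric emb emb_smooth emb_inj (fun _ => innerSL ℝ)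
    (fun _ => contDiffAt_const) (fun _ v w => real_inner_comm w v)
    (fun _ v hv => real_inner_self_pos.2 hv)

lemma isImm : IsImm gM emb where
  smooth := emb_smooth
  iso _ _ _ := rfl

/-- a linear isometry preserving the set of the orthonormal pairs acts on the manifold -/
def act (T : VV ≃ₗᵢ[ℝ] VV) (h : ∀ F ∈ V2, T F ∈ V2) (x : MM) : MM := mk (T (emb x)) (h _ (emb_mem x))

lemma emb_act (T : VV ≃ₗᵢ[ℝ] VV) (h : ∀ F ∈ V2, T F ∈ V2) (x : MM) :
    emb (act T h x) = T (emb x) := emb_mk _ _

lemma act_smooth (T : VV ≃ₗᵢ[ℝ] VV) (h : ∀ F ∈ V2, T F ∈ V2) : ContMDiff II II ∞ (act T h) := by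
  apply mk_smooth
  exact T.toContinuousLinearEquiv.contDiff.contMDiff.comp emb_smooth

/-- the diffeomorphism -/
def actD (T : VV ≃ₗᵢ[ℝ] VV) (h : ∀ F ∈ V2, T F ∈ V2) (h' : ∀ F ∈ V2, T.symm F ∈ V2) :
    Diffeomorph II II MM MM ∞ where
  toFun := act T h
  invFun := act T.symm h'
  left_inv x := by
    apply emb_injective
    rw [emb_act, emb_act, T.symm_apply_apply]
  right_inv x := by
    apply emb_injective
    rw [emb_act, emb_act, T.apply_symm_apply]
  contMDiff_toFun := act_smooth T h
  contMDiff_invFun := act_smooth T.symm h'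

lemma Dm_act (T : VV ≃ₗᵢ[ℝ] VV) (h : ∀ F ∈ V2, T F ∈ V2) (x : MM) (v : E5) :
    Dm II emb (act T h x) (mfderiv II II (act T h) x v : E5) = T (Dm II emb x v) := by
  have d1 : MDifferentiableAt II 𝓘(ℝ, VV) emb (act T h x) :=
    (emb_smooth _).mdifferentiableAt (by simp)
  have d2 : MDifferentiableAt II II (act T h) x := (act_smooth T h x).mdifferentiableAt (by simp)
  have d3 : MDifferentiableAt II 𝓘(ℝ, VV) emb x := (emb_smooth _).mdifferentiableAt (by simp)
  have e1 := mfderiv_comp x d1 d2
  have e2 : emb ∘ act T h = T ∘ emb := funext (emb_act T h)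
  have e3 := Dm_comp (r := T) d3 T.differentiable.differentiableAt v
  have e4 : Dm II (emb ∘ act T h) x v =
    Dm II emb (act T h x) (mfderiv II II (act T h) x v : E5) :=
    congrArg (fun L : E5 →L[ℝ] VV => L v) e1
  rw [← e4, e2, e3]
  have e5 : fderiv ℝ T (emb x) = (T.toContinuousLinearEquiv : VV →L[ℝ] VV) :=
    T.toContinuousLinearEquiv.hasFDerivAt.fderiv
  rw [e5]
  rfl

lemma actD_isometry (T : VV ≃ₗᵢ[ℝ] VV) (h : ∀ F ∈ V2, T F ∈ V2) (h' : ∀ F ∈ V2, T.symm F ∈ V2) :
    IsIsometry gM (actD T h h') := by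
  intro x v w
  have h1 : (gM.inner (act T h x) : E5 →L[ℝ] E5 →L[ℝ] ℝ)
      (mfderiv II II (act T h) x v) (mfderiv II II (act T h) x w) =
      inner ℝ (Dm II emb (act T h x) (mfderiv II II (act T h) x v : E5))
        (Dm II emb (act T h x) (mfderiv II II (act T h) x w : E5)) := isImm.iso _ _ _
  refine Eq.trans h1 ?_
  rw [Dm_act, Dm_act, T.inner_map_map]
  exact (isImm.iso x v w).symm

end Pool.Agent.Y503.HC
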