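import Pool.Agent.Y503.HC.Defs

/-! Lengths of curves and the Riemannian distance. -/

set_option autoImplicit false

open scoped Manifold ContDiff Topology ENNReal
open Set Bundle Bornology Filter Manifold MeasureTheory

noncomputable section

namespace Pool.Agent.Y503.HC

variable {E : Type} [NormedAddCommGroup E] [NormedSpace ℝ E] {H : Type} [TopologicalSpace H]
  {I : ModelWithCorners ℝ E H}
  {M : Type} [TopologicalSpace M] [ChartedSpace H M] [IsManifold I ∞ M]
  {N : Type} [TopologicalSpace N] [ChartedSpace H N] [IsManifold I ∞ N]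

/-- transport of the inner product along an equality of points -/
lemma inner_congr' (g : Metric I M) {x y : M} (h : x = y) (v w : E) :
    (g.inner x : E →L[ℝ] E →L[ℝ] ℝ) v w = (g.inner y : E →L[ℝ] E →L[ℝ] ℝ) v w := by
  subst h; rfl

/-- the norm of a tangent vector -/
def nrm (g : Metric I M) (x : M) (v : TangentSpace I x) : ℝ := Real.sqrt (g.inner x v v)

/-- the length of a curve -/
def len (g : Metric I M) (c : ℝ → M) (a b : ℝ) : ℝ≥0∞ :=
  ∫⁻ t in Icc a b, ENNReal.ofReal (nrm g (c t) (mfderivWithin 𝓘(ℝ, ℝ) I c (Icc a b) t (1 : ℝ)))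

lemma enorm_eq (g : Metric I M) (x : M) (v : TangentSpace I x) :
    letI : RiemannianBundle (fun x : M => TangentSpace I x) := ⟨g.toRiemannianMetric⟩
    ‖v‖ₑ = ENNReal.ofReal (nrm g x v) := by
  letI : RiemannianBundle (fun x : M => TangentSpace I x) := ⟨g.toRiemannianMetric⟩
  have h : ‖v‖ = nrm g x v := by
    rw [norm_eq_sqrt_real_inner]
    rfl
  rw [← ofReal_norm, h]

lemma len_eq (g : Metric I M) (c : ℝ → M) (a b : ℝ) :
    letI : RiemannianBundle (fun x : M => TangentSpace I x) := ⟨g.toRiemannianMetric⟩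
    pathELength I c a b = len g c a b := by
  letI : RiemannianBundle (fun x : M => TangentSpace I x) := ⟨g.toRiemannianMetric⟩
  rw [pathELength_eq_lintegral_mfderivWithin_Icc]
  unfold len
  congr 1
  funext t
  exact enorm_eq g _ _

lemma dist_le_len (g : Metric I M) {c : ℝ → M} {a b : ℝ}
    (hc : ContMDiffOn 𝓘(ℝ, ℝ) I 1 c (Icc a b)) (hab : a ≤ b) :
    dist g (c a) (c b) ≤ len g c a b := by
  letI : RiemannianBundle (fun x : M => TangentSpace I x) := ⟨g.toRiemannianMetric⟩
  rw [← len_eq]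
  exact riemannianEDist_le_pathELength hc rfl rfl hab

lemma exists_path (g : Metric I M) {x y : M} {r : ℝ≥0∞} (h : dist g x y < r) :
    ∃ c : ℝ → M, c 0 = x ∧ c 1 = y ∧ ContMDiffOn 𝓘(ℝ, ℝ) I 1 c (Icc 0 1) ∧ len g c 0 1 < r := by
  letI : RiemannianBundle (fun x : M => TangentSpace I x) := ⟨g.toRiemannianMetric⟩
  obtain ⟨c, h0, h1, h2, h3⟩ := exists_lt_of_riemannianEDist_lt (I := I) (x := x) (y := y) h
  rw [len_eq] at h3
  exact ⟨c, h0, h1, h2, h3⟩

lemma len_add (g : Metric I M) (c : ℝ → M) {a b d : ℝ} (h1 : a ≤ b) (h2 : b ≤ d) :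
    len g c a b + len g c b d = len g c a d := by
  letI : RiemannianBundle (fun x : M => TangentSpace I x) := ⟨g.toRiemannianMetric⟩
  rw [← len_eq, ← len_eq, ← len_eq]
  exact pathELength_add h1 h2

lemma dist_self (g : Metric I M) (x : M) : dist g x x = 0 := by
  letI : RiemannianBundle (fun x : M => TangentSpace I x) := ⟨g.toRiemannianMetric⟩
  exact riemannianEDist_self

lemma dist_comm (g : Metric I M) (x y : M) : dist g x y = dist g y x := by
  letI : RiemannianBundle (fun x : M => TangentSpace I x) := ⟨g.toRiemannianMetric⟩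
  exact riemannianEDist_comm

lemma dist_triangle (g : Metric I M) (x y z : M) : dist g x z ≤ dist g x y + dist g y z := by
  letI : RiemannianBundle (fun x : M => TangentSpace I x) := ⟨g.toRiemannianMetric⟩
  exact riemannianEDist_triangle

/-- a smooth map which preserves the metrics does not increase the distance -/
lemma dist_map_le (g : Metric I M) (g' : Metric I N) {ψ : M → N} (hψ : ContMDiff I I ∞ ψ)
    (hiso : ∀ (x : M) (v : TangentSpace I x),
      g'.inner (ψ x) (mfderiv I I ψ x v) (mfderiv I I ψ x v) = g.inner x v v) (x y : M) :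
    dist g' (ψ x) (ψ y) ≤ dist g x y := by
  apply le_of_forall_gt
  intro r hr
  obtain ⟨c, h0, h1, h2, h3⟩ := exists_path g hr
  have h4 : ContMDiffOn 𝓘(ℝ, ℝ) I 1 (ψ ∘ c) (Icc 0 1) :=
    (hψ.of_le (by simp)).comp_contMDiffOn h2
  have h5 := dist_le_len g' h4 zero_le_one
  have h6 : len g' (ψ ∘ c) 0 1 = len g c 0 1 := by
    unfold len
    apply setLIntegral_congr_fun measurableSet_Icc
    intro t ht
    have h7 : mfderivWithin 𝓘(ℝ, ℝ) I (ψ ∘ c) (Icc 0 1) t =
        (mfderiv I I ψ (c t)).comp (mfderivWithin 𝓘(ℝ, ℝ) I c (Icc 0 1) t) := by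
      apply mfderiv_comp_mfderivWithin
      · exact (hψ (c t)).mdifferentiableAt (by simp)
      · exact (h2 t ht).mdifferentiableWithinAt (by simp)
      · rw [uniqueMDiffWithinAt_iff_uniqueDiffWithinAt]
        exact uniqueDiffOn_Icc zero_lt_one t ht
    show ENNReal.ofReal (nrm g' (ψ (c t)) (mfderivWithin 𝓘(ℝ, ℝ) I (ψ ∘ c) (Icc 0 1) t (1 : ℝ))) =
      ENNReal.ofReal (nrm g (c t) (mfderivWithin 𝓘(ℝ, ℝ) I c (Icc 0 1) t (1 : ℝ)))
    rw [h7]
    congr 1
    unfold nrm
    congr 1
    exact hiso (c t) (mfderivWithin 𝓘(ℝ, ℝ) I c (Icc 0 1) t (1 : ℝ))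
  rw [h6] at h5
  refine lt_of_le_of_lt ?_ h3
  have h8 : (ψ ∘ c) 0 = ψ x := by simp [h0]
  have h9 : (ψ ∘ c) 1 = ψ y := by simp [h1]
  rw [h8, h9] at h5
  exact h5

end Pool.Agent.Y503.HC
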