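import Pool.Agent.Y503.HC.Isom

/-! Distances along great circle arcs, and minimising arcs. -/

set_option autoImplicit false

open scoped Manifold ContDiff Topology ENNReal Quaternion
open Set Module InnerProductGeometry Filter Real

noncomputable section

namespace Pool.Agent.Y503.HC

lemma sqrt2_pos : (0 : ℝ) < √2 := Real.sqrt_pos.2 two_pos

lemma sqrt2_sq : (√2 : ℝ) ^ 2 = 2 := Real.sq_sqrt two_pos.le

/-- the curve which follows a great circle -/
def arc (F K : VV) (t : ℝ) : VV := cos t • F + sin t • K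

/-- upper bound for the distance along an arc of a great circle -/
lemma arc_le {F K : VV} (h : ∀ t, arc F K t ∈ V2) (h0 : inner ℝ F K = 0) (hF : ‖F‖ = √2)
    (hK : ‖K‖ = √2) {θ : ℝ} (hθ : 0 ≤ θ) :
    dist gM (mk (arc F K 0) (h 0)) (mk (arc F K θ) (h θ)) ≤ ENNReal.ofReal (√2 * θ) := by
  set c : ℝ → MM := fun t => mk (arc F K (θ * t)) (h _) with hc
  have hsm : ContMDiff 𝓘(ℝ, ℝ) II ∞ c := by
    apply mk_smooth
    have : ContDiff ℝ ∞ (fun t : ℝ => arc F K (θ * t)) := by
      unfold arc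
      fun_prop
    exact this.contMDiff
  have hce : ∀ t, (emb ∘ c) t = arc F K (θ * t) := fun t => emb_mk _ _
  have hd : ∀ t, HasDerivAt (emb ∘ c) (θ • (cos (θ * t) • K - sin (θ * t) • F)) t := by
    intro t
    have e : (emb ∘ c) = fun t => cos (θ * t) • F + sin (θ * t) • K := funext hce
    rw [e]
    have h1 : HasDerivAt (fun t : ℝ => θ * t) θ t := by
      simpa using (hasDerivAt_id t).const_mul θ
    have h2 : HasDerivAt (fun t : ℝ => cos (θ * t) • F + sin (θ * t) • K)
        ((-sin (θ * t) * θ) • F + (cos (θ * t) * θ) • K) t :=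
      (h1.cos.smul_const F).add (h1.sin.smul_const K)
    have h3 : θ • (cos (θ * t) • K - sin (θ * t) • F) =
        (-sin (θ * t) * θ) • F + (cos (θ * t) * θ) • K := by module
    rw [h3]
    exact h2
  have hn : ∀ t, ‖θ • (cos (θ * t) • K - sin (θ * t) • F)‖ ≤ √2 * θ := by
    intro t
    rw [norm_smul, Real.norm_eq_abs, abs_of_nonneg hθ, mul_comm]
    apply mul_le_mul_of_nonneg_right _ hθ
    apply le_of_eq
    have : ‖cos (θ * t) • K - sin (θ * t) • F‖ ^ 2 = √2 ^ 2 := by
      rw [norm_sub_sq_real]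
      have h0' : inner ℝ K F = 0 := by rw [real_inner_comm]; exact h0
      simp only [norm_smul, mul_pow, inner_smul_left, inner_smul_right, Real.norm_eq_abs, sq_abs,
        conj_trivial, hF, hK, h0', sqrt2_sq]
      linear_combination 2 * sin_sq_add_cos_sq (θ * t)
    exact (sq_eq_sq₀ (norm_nonneg _) (sqrt_nonneg _)).1 this
  have := isImm.dist_le (hsm.of_le (by simp)) hd hn
  have e0 : c 0 = mk (arc F K 0) (h 0) := by
    apply emb_injective
    rw [emb_mk, emb_mk, mul_zero]
  have e1 : c 1 = mk (arc F K θ) (h θ) := by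
    apply emb_injective
    rw [emb_mk, emb_mk, mul_one]
  rw [e0, e1] at this
  exact this

/-- lower bound for the distance -/
lemma angle_le (x y : MM) : ENNReal.ofReal (√2 * angle (emb x) (emb y)) ≤ dist gM x y :=
  isImm.angle_le_dist sqrt2_pos norm_emb x y

lemma inner_eq_cos (x y : MM) : inner ℝ (emb x) (emb y) = 2 * cos (angle (emb x) (emb y)) := by
  rw [← cos_angle_mul_norm_mul_norm, norm_emb, norm_emb, Real.mul_self_sqrt two_pos.le]
  ring

lemma angle_eq (x y : MM) : angle (emb x) (emb y) = arccos (inner ℝ (emb x) (emb y) / 2) := by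
  unfold angle
  rw [norm_emb, norm_emb, Real.mul_self_sqrt two_pos.le]

/-- the distance of the ends of an arc of a great circle -/
lemma dist_arc {x y : MM} {K : VV} {θ : ℝ} (h0 : 0 ≤ θ) (h1 : θ ≤ π) (hK : ‖K‖ = √2)
    (hFK : inner ℝ (emb x) K = 0) (hV : ∀ t, arc (emb x) K t ∈ V2)
    (hy : emb y = arc (emb x) K θ) : dist gM x y = ENNReal.ofReal (√2 * θ) := by
  have ex : mk (arc (emb x) K 0) (hV 0) = x := by
    apply emb_injective
    rw [emb_mk]
    simp [arc]
  have ey : mk (arc (emb x) K θ) (hV θ) = y := by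
    apply emb_injective
    rw [emb_mk, hy]
  apply le_antisymm
  · have := arc_le hV hFK (norm_emb x) hK h0
    rwa [ex, ey] at this
  · have h2 := angle_le x y
    have h3 : angle (emb x) (emb y) = θ := by
      rw [angle_eq, hy]
      unfold arc
      rw [inner_add_right, inner_smul_right, inner_smul_right, hFK, real_inner_self_eq_norm_sq,
        norm_emb, sqrt2_sq]
      rw [show (cos θ * 2 + sin θ * 0) / 2 = cos θ by ring, arccos_cos h0 h1]
    rwa [h3] at h2

/-- the set of orthonormal pairs is closed -/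
lemma isClosed_V2 : IsClosed V2 := by
  have h1 : Continuous (fun F : VV => F.fst) := (WithLp.fstL 2 ℝ ℍ[ℝ] ℍ[ℝ]).continuous
  have h2 : Continuous (fun F : VV => F.snd) := (WithLp.sndL 2 ℝ ℍ[ℝ] ℍ[ℝ]).continuous
  have e : V2 = {F : VV | ‖F.fst‖ = 1} ∩ ({F : VV | ‖F.snd‖ = 1} ∩
      {F : VV | inner ℝ F.fst F.snd = 0}) := rfl
  rw [e]
  exact (isClosed_eq h1.norm continuous_const).inter
    ((isClosed_eq h2.norm continuous_const).inter
      (isClosed_eq (h1.inner h2) continuous_const))

/-- if the distance of two points at angle `π / 2` is that of the sphere, then the midpoint of the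
arc of the great circle lies in the manifold -/
lemma mid_mem {x y : MM} (h0 : inner ℝ (emb x) (emb y) = 0)
    (h1 : dist gM x y ≤ ENNReal.ofReal (√2 * (π / 2))) :
    (√2)⁻¹ • (emb x + emb y) ∈ V2 := by
  rw [← isClosed_V2.closure_eq, Metric.mem_closure_iff]
  intro ε hε
  -- choice of the excess
  have hlim : Tendsto (fun δ : ℝ => 2 - 2 * √2 * cos (π / 4 + δ)) (𝓝[>] 0) (𝓝 0) := by
    have h2 : Continuous (fun δ : ℝ => 2 - 2 * √2 * cos (π / 4 + δ)) := by fun_prop
    have h3 := (h2.tendsto 0).mono_left (nhdsWithin_le_nhds (s := Ioi 0))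
    have h4 : (2 - 2 * √2 * cos (π / 4 + 0)) = 0 := by
      rw [add_zero, cos_pi_div_four]
      have := sqrt2_sq
      nlinarith
    rwa [h4] at h3
  have hev := hlim.eventually (gt_mem_nhds (show (0 : ℝ) < ε ^ 2 by positivity))
  have hev2 : ∀ᶠ δ : ℝ in 𝓝[>] 0, δ < π / 4 := by
    have : Iio (π / 4) ∈ 𝓝[>] (0 : ℝ) := mem_nhdsWithin_of_mem_nhds (Iio_mem_nhds (by positivity))
    exact this
  obtain ⟨δ, ⟨hδ1, hδ2⟩, hδ0⟩ := ((hev.and hev2).and self_mem_nhdsWithin).exists
  have hδ0 : 0 < δ := hδ0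
  -- an almost minimising path
  have hlt : dist gM x y < ENNReal.ofReal (√2 * (π / 2) + √2 * δ) := by
    apply lt_of_le_of_lt h1
    apply (ENNReal.ofReal_lt_ofReal_iff _).2
    · have := sqrt2_pos; nlinarith
    · have := sqrt2_pos; positivity
  obtain ⟨c, hc0, hc1, hc, hlen⟩ := exists_path gM hlt
  have hcont : ContinuousOn (fun t => angle (emb x) (emb (c t))) (Icc 0 1) := by
    have h5 : ContinuousOn (fun t => emb (c t)) (Icc 0 1) :=
      emb_smooth.continuous.comp_continuousOn hc.continuousOn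
    have e : ∀ t, angle (emb x) (emb (c t)) = arccos (inner ℝ (emb x) (emb (c t)) / 2) :=
      fun t => angle_eq _ _
    simp_rw [e]
    exact continuous_arccos.comp_continuousOn
      ((continuousOn_const.inner h5).div_const 2)
  have ha0 : angle (emb x) (emb (c 0)) = 0 := by
    rw [hc0]
    apply angle_self
    intro h
    have := norm_emb x
    rw [h, norm_zero] at this
    exact sqrt2_pos.ne this
  have ha1 : angle (emb x) (emb (c 1)) = π / 2 := by
    rw [hc1, angle_eq, h0]
    simp
  obtain ⟨t, ht, hta⟩ : π / 4 ∈ (fun t => angle (emb x) (emb (c t))) '' Icc 0 1 := by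
    apply intermediate_value_Icc zero_le_one hcont
    simp only [ha0, ha1]
    constructor <;> linarith [pi_pos]
  simp only at hta
  set z := c t with hz
  have hl1 := isImm.angle_le_len sqrt2_pos norm_emb ht.1 (hc.mono (Icc_subset_Icc le_rfl ht.2))
  have hl2 := isImm.angle_le_len sqrt2_pos norm_emb ht.2 (hc.mono (Icc_subset_Icc ht.1 le_rfl))
  rw [hc0, ← hz, hta] at hl1
  rw [hc1, ← hz] at hl2
  have hl3 := len_add gM c ht.1 ht.2
  have hl4 : ENNReal.ofReal (√2 * (π / 4)) + ENNReal.ofReal (√2 * angle (emb z) (emb y)) <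
      ENNReal.ofReal (√2 * (π / 2) + √2 * δ) := by
    refine lt_of_le_of_lt (add_le_add hl1 hl2) ?_
    rwa [hl3]
  rw [← ENNReal.ofReal_add (by have := sqrt2_pos; positivity)
    (by have := sqrt2_pos; have := angle_nonneg (emb z) (emb y); positivity)] at hl4
  have hl5 := (ENNReal.ofReal_lt_ofReal_iff_of_nonneg
    (by have := sqrt2_pos; have := angle_nonneg (emb z) (emb y); positivity)).1 hl4
  have hl6 : angle (emb z) (emb y) < π / 4 + δ := by
    have : √2 * angle (emb z) (emb y) < √2 * (π / 4 + δ) := by linarith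
    exact lt_of_mul_lt_mul_left this sqrt2_pos.le
  -- conclusion
  refine ⟨emb z, emb_mem z, ?_⟩
  rw [dist_eq_norm]
  have hin1 : inner ℝ (emb x) (emb z) = √2 := by
    rw [inner_eq_cos, hta, cos_pi_div_four]; ring
  have hin2 : 2 * cos (π / 4 + δ) ≤ inner ℝ (emb y) (emb z) := by
    rw [real_inner_comm, inner_eq_cos]
    have := cos_le_cos_of_nonneg_of_le_pi (angle_nonneg (emb z) (emb y))
      (by linarith [pi_pos]) hl6.le
    linarith
  have hsq : ‖(√2)⁻¹ • (emb x + emb y) - emb z‖ ^ 2 ≤ 2 - 2 * √2 * cos (π / 4 + δ) := by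
    rw [norm_sub_sq_real, norm_smul, mul_pow, norm_add_sq_real, h0, norm_emb, norm_emb, norm_emb,
      inner_smul_left, inner_add_left, hin1, sqrt2_sq, conj_trivial]
    rw [norm_inv, Real.norm_eq_abs, abs_of_pos sqrt2_pos, inv_pow, sqrt2_sq]
    have e : (√2 : ℝ)⁻¹ = √2 / 2 := by
      rw [inv_eq_iff_eq_inv, inv_div, eq_div_iff sqrt2_pos.ne', ← sq, sqrt2_sq]
    rw [e]
    have h6 : √2 / 2 * (√2 + 2 * cos (π / 4 + δ)) ≤
        √2 / 2 * (√2 + inner ℝ (emb y) (emb z)) := by
      apply mul_le_mul_of_nonneg_left _ (by positivity)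
      linarith
    have h7 : √2 / 2 * √2 = 1 := by have := sqrt2_sq; nlinarith
    nlinarith
  exact lt_of_pow_lt_pow_left₀ 2 hε.le (lt_of_le_of_lt hsq hδ1)

end Pool.Agent.Y503.HC
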