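import Pool.Agent.Y503.HC.Emb

/-! The Stiefel manifold `V₂(ℝ⁴)` of orthonormal pairs of quaternions as `S³ × S²`. -/

set_option autoImplicit false

open scoped Manifold ContDiff Topology ENNReal Quaternion
open Set Bundle Bornology Filter Manifold MeasureTheory Module

noncomputable section

namespace Pool.Agent.Y503.HC

instance factH : Fact (finrank ℝ ℍ[ℝ] = 3 + 1) := ⟨Quaternion.finrank_eq_four⟩

/-- Euclidean three-space -/
abbrev E3 : Type := EuclideanSpace ℝ (Fin 3)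

instance factE3 : Fact (finrank ℝ E3 = 2 + 1) := ⟨by simp⟩

/-- unit quaternions -/
abbrev S3 : Type := Metric.sphere (0 : ℍ[ℝ]) 1

/-- the two-sphere -/
abbrev S2 : Type := Metric.sphere (0 : E3) 1

/-- the model with corners -/
abbrev II : ModelWithCorners ℝ (EuclideanSpace ℝ (Fin 3) × EuclideanSpace ℝ (Fin 2))
    (ModelProd (EuclideanSpace ℝ (Fin 3)) (EuclideanSpace ℝ (Fin 2))) := (𝓡 3).prod (𝓡 2)

/-- imaginary quaternions -/
def imL : E3 →ₗ[ℝ] ℍ[ℝ] where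
  toFun u := ⟨0, u 0, u 1, u 2⟩
  map_add' u v := by ext <;> simp
  map_smul' c u := by ext <;> simp

/-- imaginary quaternions -/
def im : E3 →L[ℝ] ℍ[ℝ] := LinearMap.toContinuousLinearMap imL

lemma im_apply (u : E3) : im u = ⟨0, u 0, u 1, u 2⟩ := rfl

@[simp] lemma im_re (u : E3) : (im u).re = 0 := rfl
@[simp] lemma im_i (u : E3) : (im u).imI = u 0 := rfl
@[simp] lemma im_j (u : E3) : (im u).imJ = u 1 := rfl
@[simp] lemma im_k (u : E3) : (im u).imK = u 2 := rfl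

/-- the imaginary part as a vector -/
def vecL : ℍ[ℝ] →ₗ[ℝ] E3 where
  toFun q := !₂[q.imI, q.imJ, q.imK]
  map_add' u v := by ext i; fin_cases i <;> simp
  map_smul' c u := by ext i; fin_cases i <;> simp

/-- the imaginary part as a vector -/
def vec : ℍ[ℝ] →L[ℝ] E3 := LinearMap.toContinuousLinearMap vecL

lemma vec_apply (q : ℍ[ℝ]) : vec q = !₂[q.imI, q.imJ, q.imK] := rfl

@[simp] lemma vec_im (u : E3) : vec (im u) = u := by
  rw [vec_apply]; ext i; fin_cases i <;> simp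

lemma im_vec {q : ℍ[ℝ]} (hq : q.re = 0) : im (vec q) = q := by
  rw [vec_apply]; ext <;> simp [hq]

lemma norm_sq_q (q : ℍ[ℝ]) : ‖q‖ ^ 2 = q.re ^ 2 + q.imI ^ 2 + q.imJ ^ 2 + q.imK ^ 2 := by
  rw [sq, ← Quaternion.normSq_eq_norm_mul_self, Quaternion.normSq_def']

lemma norm_im (u : E3) : ‖im u‖ = ‖u‖ := by
  have h : ‖im u‖ ^ 2 = ‖u‖ ^ 2 := by
    rw [norm_sq_q, EuclideanSpace.norm_sq_eq, Fin.sum_univ_three]
    simp
  exact (sq_eq_sq₀ (norm_nonneg _) (norm_nonneg _)).1 h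

lemma norm_vec {q : ℍ[ℝ]} (hq : q.re = 0) : ‖vec q‖ = ‖q‖ := by
  rw [← norm_im, im_vec hq]

lemma star_mul_self_unit {q : ℍ[ℝ]} (hq : ‖q‖ = 1) : star q * q = 1 := by
  rw [Quaternion.star_mul_self, Quaternion.normSq_eq_norm_mul_self, hq]
  simp

lemma self_mul_star_unit {q : ℍ[ℝ]} (hq : ‖q‖ = 1) : q * star q = 1 := by
  rw [Quaternion.self_mul_star, Quaternion.normSq_eq_norm_mul_self, hq]
  simp

lemma inner_q (a b : ℍ[ℝ]) : inner ℝ a b =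
    a.re * b.re + a.imI * b.imI + a.imJ * b.imJ + a.imK * b.imK := by
  rw [Quaternion.inner_def]; simp

lemma inner_eq_re (a b : ℍ[ℝ]) : inner ℝ a b = (star a * b).re := by
  rw [inner_q]; simp

/-- pairs of quaternions, with the Euclidean norm -/
abbrev VV : Type := WithLp 2 (ℍ[ℝ] × ℍ[ℝ])

/-- the pair of two quaternions -/
def pr (a b : ℍ[ℝ]) : VV := WithLp.toLp 2 (a, b)

@[simp] lemma pr_fst (a b : ℍ[ℝ]) : (pr a b).fst = a := rfl
@[simp] lemma pr_snd (a b : ℍ[ℝ]) : (pr a b).snd = b := rfl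

lemma vv_ext {x y : VV} (h1 : x.fst = y.fst) (h2 : x.snd = y.snd) : x = y := by
  have : WithLp.ofLp x = WithLp.ofLp y := Prod.ext h1 h2
  exact WithLp.ofLp_injective 2 this

lemma pr_eta (x : VV) : pr x.fst x.snd = x := rfl

/-- the orthonormal pairs -/
def V2 : Set VV := {F | ‖F.fst‖ = 1 ∧ ‖F.snd‖ = 1 ∧ inner ℝ F.fst F.snd = 0}

/-- the Stiefel manifold of orthonormal pairs in `ℝ⁴` is `S³ × S²` -/
abbrev MM : Type := S3 × S2

/-- the embedding in the Euclidean space of the pairs -/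
def emb (x : MM) : VV := pr (x.1 : ℍ[ℝ]) ((x.1 : ℍ[ℝ]) * im (x.2 : E3))

lemma norm_S3 (v : S3) : ‖(v : ℍ[ℝ])‖ = 1 := mem_sphere_zero_iff_norm.1 v.2
lemma norm_S2 (v : S2) : ‖(v : E3)‖ = 1 := mem_sphere_zero_iff_norm.1 v.2

lemma emb_mem (x : MM) : emb x ∈ V2 := by
  refine ⟨norm_S3 x.1, ?_, ?_⟩
  · show ‖(x.1 : ℍ[ℝ]) * im (x.2 : E3)‖ = 1
    rw [norm_mul, norm_im, norm_S3, norm_S2, mul_one]
  · show inner ℝ (x.1 : ℍ[ℝ]) ((x.1 : ℍ[ℝ]) * im (x.2 : E3)) = 0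
    rw [inner_eq_re, ← mul_assoc, star_mul_self_unit (norm_S3 _), one_mul, im_re]

/-- an orthonormal pair as a point of the manifold -/
def mk (F : VV) (h : F ∈ V2) : MM :=
  (⟨F.fst, mem_sphere_zero_iff_norm.2 h.1⟩, ⟨vec (star F.fst * F.snd), by
    rw [mem_sphere_zero_iff_norm, norm_vec, norm_mul, norm_star, h.1, h.2.1, one_mul]
    rw [← inner_eq_re]; exact h.2.2⟩)

lemma emb_mk (F : VV) (h : F ∈ V2) : emb (mk F h) = F := by
  apply vv_ext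
  · rfl
  · show F.fst * im (vec (star F.fst * F.snd)) = F.snd
    rw [im_vec, ← mul_assoc, self_mul_star_unit h.1, one_mul]
    rw [← inner_eq_re]; exact h.2.2

lemma mk_emb (x : MM) : mk (emb x) (emb_mem x) = x := by
  refine Prod.ext rfl (Subtype.ext ?_)
  show vec (star (x.1 : ℍ[ℝ]) * ((x.1 : ℍ[ℝ]) * im (x.2 : E3))) = x.2
  rw [← mul_assoc, star_mul_self_unit (norm_S3 _), one_mul, vec_im]

lemma emb_injective : Function.Injective emb := by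
  intro x y h
  rw [← mk_emb x, ← mk_emb y]
  congr 1

lemma norm_V2 {F : VV} (h : F ∈ V2) : ‖F‖ = √2 := by
  have h1 : ‖F‖ ^ 2 = 2 := by
    rw [WithLp.prod_norm_sq_eq_of_L2, h.1, h.2.1]; norm_num
  rw [← h1, Real.sqrt_sq (norm_nonneg _)]

lemma norm_emb (x : MM) : ‖emb x‖ = √2 := norm_V2 (emb_mem x)

/-! ### Smoothness -/

/-- the inclusion of `S³ × S²` in the vector space -/
def inc (x : MM) : ℍ[ℝ] × E3 := ((x.1 : ℍ[ℝ]), (x.2 : E3))

lemma inc_smooth : ContMDiff II 𝓘(ℝ, ℍ[ℝ] × E3) ∞ inc := by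
  apply ContMDiff.prodMk_space
  · exact (contMDiff_coe_sphere (m := ∞)).comp contMDiff_fst
  · exact (contMDiff_coe_sphere (m := ∞)).comp contMDiff_snd

/-- the formula for `emb` -/
def embF (p : ℍ[ℝ] × E3) : VV := (WithLp.prodContinuousLinearEquiv 2 ℝ ℍ[ℝ] ℍ[ℝ]).symm
  (p.1, p.1 * im p.2)

lemma embF_smooth : ContDiff ℝ ∞ embF := by
  apply (WithLp.prodContinuousLinearEquiv 2 ℝ ℍ[ℝ] ℍ[ℝ]).symm.contDiff.comp
  apply ContDiff.prodMk contDiff_fst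
  exact contDiff_fst.mul (im.contDiff.comp contDiff_snd)

lemma emb_smooth : ContMDiff II 𝓘(ℝ, VV) ∞ emb :=
  embF_smooth.contMDiff.comp inc_smooth

/-- a left inverse -/
def retF (F : VV) : ℍ[ℝ] × E3 := (WithLp.fstL 2 ℝ ℍ[ℝ] ℍ[ℝ] F,
  vec (star (WithLp.fstL 2 ℝ ℍ[ℝ] ℍ[ℝ] F) * WithLp.sndL 2 ℝ ℍ[ℝ] ℍ[ℝ] F))

/-- conjugation as a continuous linear map -/
def starL : ℍ[ℝ] →L[ℝ] ℍ[ℝ] := LinearMap.toContinuousLinearMap
  { toFun := fun q => star q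
    map_add' := fun a b => star_add a b
    map_smul' := fun c a => by simp }

lemma retF_smooth : ContDiff ℝ ∞ retF := by
  have h1 : ContDiff ℝ ∞ (fun F : VV => WithLp.fstL 2 ℝ ℍ[ℝ] ℍ[ℝ] F) :=
    (WithLp.fstL 2 ℝ ℍ[ℝ] ℍ[ℝ]).contDiff
  have h2 : ContDiff ℝ ∞ (fun F : VV => WithLp.sndL 2 ℝ ℍ[ℝ] ℍ[ℝ] F) :=
    (WithLp.sndL 2 ℝ ℍ[ℝ] ℍ[ℝ]).contDiff
  have h3 : ContDiff ℝ ∞ (fun F : VV => star (WithLp.fstL 2 ℝ ℍ[ℝ] ℍ[ℝ] F)) :=
    starL.contDiff.comp h1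
  exact h1.prodMk (vec.contDiff.comp (h3.mul h2))

lemma ret_emb (x : MM) : retF (emb x) = inc x := by
  have h := mk_emb x
  have h1 : ((mk (emb x) (emb_mem x)).1 : ℍ[ℝ]) = x.1 := by rw [h]
  have h2 : ((mk (emb x) (emb_mem x)).2 : E3) = x.2 := by rw [h]
  exact Prod.ext h1 h2

/-- a smooth map with values in the orthonormal pairs gives a smooth map to the manifold -/
lemma mk_smooth {E' : Type} [NormedAddCommGroup E'] [NormedSpace ℝ E'] {H' : Type}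
    [TopologicalSpace H'] {I' : ModelWithCorners ℝ E' H'} {X : Type} [TopologicalSpace X]
    [ChartedSpace H' X] [IsManifold I' ∞ X] {h : X → VV} (hh : ContMDiff I' 𝓘(ℝ, VV) ∞ h) (hm : ∀ x, h x ∈ V2) :
    ContMDiff I' II ∞ (fun x => mk (h x) (hm x)) := by
  have h1 : ContMDiff I' 𝓘(ℝ, ℍ[ℝ] × E3) ∞ (fun x => retF (h x)) :=
    retF_smooth.contMDiff.comp hh
  have h2 : ContMDiff I' 𝓘(ℝ, ℍ[ℝ]) ∞ (fun x => (retF (h x)).1) :=
    contDiff_fst.contMDiff.comp h1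
  have h3 : ContMDiff I' 𝓘(ℝ, E3) ∞ (fun x => (retF (h x)).2) :=
    contDiff_snd.contMDiff.comp h1
  apply ContMDiff.prodMk
  · exact h2.codRestrict_sphere (fun x => mem_sphere_zero_iff_norm.2 (hm x).1)
  · exact h3.codRestrict_sphere (fun x => (mk (h x) (hm x)).2.2)

/-! ### The immersion -/

/-- the model vector space of `S³ × S²` -/
abbrev E5 : Type := EuclideanSpace ℝ (Fin 3) × EuclideanSpace ℝ (Fin 2)

lemma Dm_comp {W W' : Type} [NormedAddCommGroup W] [NormedSpace ℝ W] [NormedAddCommGroup W']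
    [NormedSpace ℝ W'] {ι : MM → W} {r : W → W'} {x : MM}
    (h1 : MDifferentiableAt II 𝓘(ℝ, W) ι x) (h2 : DifferentiableAt ℝ r (ι x)) (w : E5) :
    Dm II (r ∘ ι) x w = fderiv ℝ r (ι x) (Dm II ι x w) := by
  have h3 := mfderiv_comp x h2.mdifferentiableAt h1
  have h4 : Dm II (r ∘ ι) x w = Dm 𝓘(ℝ, W) r (ι x) (Dm II ι x w) :=
    congrArg (fun L : E5 →L[ℝ] W' => L w) h3
  rw [h4]
  unfold Dm
  rw [mfderiv_eq_fderiv]

lemma inc_inj (x : MM) : Function.Injective (Dm II inc x) := by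
  have d0 : MDifferentiableAt II 𝓘(ℝ, ℍ[ℝ] × E3) inc x :=
    (inc_smooth x).mdifferentiableAt (by simp)
  intro u v huv
  have e1 : ∀ w : E5, (Dm II inc x w).1 =
      (mfderiv (𝓡 3) 𝓘(ℝ, ℍ[ℝ]) ((↑) : S3 → ℍ[ℝ]) x.1 : _ →L[ℝ] ℍ[ℝ]) w.1 := by
    intro w
    have h1 := Dm_comp (r := Prod.fst) d0 differentiableAt_fst w
    rw [fderiv_fst] at h1
    have h2 : (Prod.fst ∘ inc : MM → ℍ[ℝ]) = ((↑) : S3 → ℍ[ℝ]) ∘ Prod.fst := rfl
    have d1 : MDifferentiableAt (𝓡 3) 𝓘(ℝ, ℍ[ℝ]) ((↑) : S3 → ℍ[ℝ]) x.1 :=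
      (contMDiff_coe_sphere (m := ∞) x.1).mdifferentiableAt (by simp)
    have h3 := mfderiv_comp x d1 (mdifferentiableAt_fst (I := 𝓡 3) (I' := 𝓡 2) (x := x))
    rw [h2] at h1
    have h4 := congrArg (fun L : E5 →L[ℝ] ℍ[ℝ] => L w) h3
    rw [mfderiv_fst] at h4
    exact h1.symm.trans h4
  have e2 : ∀ w : E5, (Dm II inc x w).2 =
      (mfderiv (𝓡 2) 𝓘(ℝ, E3) ((↑) : S2 → E3) x.2 : _ →L[ℝ] E3) w.2 := by
    intro w
    have h1 := Dm_comp (r := Prod.snd) d0 differentiableAt_snd w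
    rw [fderiv_snd] at h1
    have h2 : (Prod.snd ∘ inc : MM → E3) = ((↑) : S2 → E3) ∘ Prod.snd := rfl
    have d1 : MDifferentiableAt (𝓡 2) 𝓘(ℝ, E3) ((↑) : S2 → E3) x.2 :=
      (contMDiff_coe_sphere (m := ∞) x.2).mdifferentiableAt (by simp)
    have h3 := mfderiv_comp x d1 (mdifferentiableAt_snd (I := 𝓡 3) (I' := 𝓡 2) (x := x))
    rw [h2] at h1
    have h4 := congrArg (fun L : E5 →L[ℝ] E3 => L w) h3
    rw [mfderiv_snd] at h4
    exact h1.symm.trans h4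
  have i1 := mfderiv_coe_sphere_injective (n := 3) x.1
  have i2 := mfderiv_coe_sphere_injective (n := 2) x.2
  have h1 : (mfderiv (𝓡 3) 𝓘(ℝ, ℍ[ℝ]) ((↑) : S3 → ℍ[ℝ]) x.1 : _ →L[ℝ] ℍ[ℝ]) u.1 =
      (mfderiv (𝓡 3) 𝓘(ℝ, ℍ[ℝ]) ((↑) : S3 → ℍ[ℝ]) x.1 : _ →L[ℝ] ℍ[ℝ]) v.1 := by
    rw [← e1, ← e1, huv]
  have h2 : (mfderiv (𝓡 2) 𝓘(ℝ, E3) ((↑) : S2 → E3) x.2 : _ →L[ℝ] E3) u.2 =
      (mfderiv (𝓡 2) 𝓘(ℝ, E3) ((↑) : S2 → E3) x.2 : _ →L[ℝ] E3) v.2 := by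
    rw [← e2, ← e2, huv]
  exact Prod.ext (i1 h1) (i2 h2)

lemma emb_inj (x : MM) : Function.Injective (Dm II emb x) := by
  have h1 : retF ∘ emb = inc := funext ret_emb
  have d1 : MDifferentiableAt II 𝓘(ℝ, VV) emb x := (emb_smooth x).mdifferentiableAt (by simp)
  have d2 : DifferentiableAt ℝ retF (emb x) := (retF_smooth.contDiffAt).differentiableAt (by simp)
  intro u v huv
  apply inc_inj x
  have h3 : ∀ w : E5, Dm II inc x w = fderiv ℝ retF (emb x) (Dm II emb x w) := by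
    intro w
    rw [← h1]
    exact Dm_comp d1 d2 w
  rw [h3, h3, huv]

end Pool.Agent.Y503.HC
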