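import Pool.Agent.Y503.HC.Quot

/-! The Riemannian metric on the quotient. -/

set_option autoImplicit false

open scoped Manifold ContDiff Topology
open Set Bundle Bornology Filter

noncomputable section

namespace Pool.Agent.Y503.HC

variable {E : Type} [NormedAddCommGroup E] [NormedSpace ℝ E] {H : Type} [TopologicalSpace H]
  {I : ModelWithCorners ℝ E H}
  {M : Type} [TopologicalSpace M] [ChartedSpace H M] [IsManifold I ∞ M]

/-- the derivative of the inverse chart -/
def Dch (p0 : M) (y : E) : E →L[ℝ] E := mfderiv 𝓘(ℝ, E) I (extChartAt I p0).symm y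

/-- a field of forms in the chart at `p0` -/
def cform (B : ∀ p : M, TangentSpace I p →L[ℝ] TangentSpace I p →L[ℝ] ℝ) (p0 : M) (y : E) :
    E →L[ℝ] E →L[ℝ] ℝ :=
  let G : E →L[ℝ] E →L[ℝ] ℝ := B ((extChartAt I p0).symm y)
  G.bilinearComp (Dch (I := I) p0 y) (Dch (I := I) p0 y)

set_option backward.isDefEq.respectTransparency false in
lemma triv_eq [I.Boundaryless]
    (B : ∀ p : M, TangentSpace I p →L[ℝ] TangentSpace I p →L[ℝ] ℝ) (p0 : M) :
    (fun p : M => (trivializationAt (E →L[ℝ] E →L[ℝ] ℝ)
        (fun p : M => TangentSpace I p →L[ℝ] TangentSpace I p →L[ℝ] ℝ) p0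
        (TotalSpace.mk' (E →L[ℝ] E →L[ℝ] ℝ) p (B p))).2) =ᶠ[𝓝 p0]
      fun p : M => cform B p0 (extChartAt I p0 p) := by
  filter_upwards [extChartAt_source_mem_nhds (I := I) p0] with p hp
  have hp' : p ∈ (chartAt H p0).source := by rwa [extChartAt_source] at hp
  have hy : extChartAt I p0 p ∈ (extChartAt I p0).target := (extChartAt I p0).map_source hp
  have hb : (extChartAt I p0).symm (extChartAt I p0 p) = p := (extChartAt I p0).left_inv hp
  rw [hom_trivializationAt_apply]
  ext a b
  have hI := inCoordinates_apply_eq₂ (F₁ := E) (E₁ := fun p : M => TangentSpace I p) (F₂ := E)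
    (E₂ := fun p : M => TangentSpace I p) (F₃ := ℝ) (E₃ := Bundle.Trivial M ℝ)
    (x₀ := p0) (x := p) (ϕ := B p) (v := a) (w := b)
    (by simpa using hp') (by simpa using hp') (by simp)
  have hT : ∀ v : E, (trivializationAt E (fun p : M => TangentSpace I p) p0).symm p v =
      mfderiv 𝓘(ℝ, E) I (extChartAt I p0).symm (extChartAt I p0 p) v := by
    intro v
    have h2 := TangentBundle.symmL_trivializationAt (𝕜 := ℝ) (I := I) hp'
    rw [I.range_eq_univ, mfderivWithin_univ] at h2
    have h4 := Bundle.Trivialization.symmL_apply (R := ℝ)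
      (trivializationAt E (TangentSpace I) p0) (b := p) (by simpa using hp') v
    exact h4.symm.trans (congrArg (fun L : E →L[ℝ] E => L v) h2)
  erw [hI]
  rw [hT, hT]
  have h5 : ∀ r : ℝ, (trivializationAt ℝ (Bundle.Trivial M ℝ) p0).linearMapAt ℝ p r = r := by
    intro r
    rw [Bundle.Trivialization.linearMapAt_apply]
    simp
  erw [h5]
  have h6 : ∀ (q : M) (_ : q = p) (u v : E),
      (B q : E →L[ℝ] E →L[ℝ] ℝ) u v = (B p : E →L[ℝ] E →L[ℝ] ℝ) u v := by
    rintro _ rfl u v
    rfl
  exact (h6 _ hb _ _).symm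

lemma smooth_iff_cform [I.Boundaryless]
    (B : ∀ p : M, TangentSpace I p →L[ℝ] TangentSpace I p →L[ℝ] ℝ) (p0 : M) :
    ContMDiffAt I (I.prod 𝓘(ℝ, E →L[ℝ] E →L[ℝ] ℝ)) ∞
      (fun p : M => TotalSpace.mk' (E →L[ℝ] E →L[ℝ] ℝ)
        (E := fun p : M => TangentSpace I p →L[ℝ] TangentSpace I p →L[ℝ] ℝ) p (B p)) p0 ↔
    ContMDiffAt I 𝓘(ℝ, E →L[ℝ] E →L[ℝ] ℝ) ∞ (fun p => cform B p0 (extChartAt I p0 p)) p0 := by
  rw [contMDiffAt_section]
  exact ⟨fun h => h.congr_of_eventuallyEq (triv_eq B p0).symm,
    fun h => h.congr_of_eventuallyEq (triv_eq B p0)⟩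

variable {N : Type} [TopologicalSpace N] {f : M → N}

/-- the fibres of `f` are related by smooth deck maps preserving `g` -/
def GDeck (g : Metric I M) (f : M → N) : Prop :=
  ∀ x y : M, f x = f y → ∃ φ : M → M, ContMDiff I I ∞ φ ∧ φ x = y ∧ (∀ z, f (φ z) = f z) ∧
    ∀ (z : M) (v w : TangentSpace I z),
      g.inner (φ z) (mfderiv I I φ z v) (mfderiv I I φ z w) = g.inner z v w

omit [TopologicalSpace N] in
lemma GDeck.deck {g : Metric I M} (h : GDeck g f) : Deck I f := by
  intro x y hxy
  obtain ⟨φ, h1, h2, h3, -⟩ := h x y hxy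
  exact ⟨φ, h1, h2, h3⟩

variable [ChartedSpace H N] [IsManifold I ∞ N]

/-- the inner product on the quotient -/
def innerN (hf : IsLocalHomeomorph f) (hs : Function.Surjective f) (g : Metric I M) (n : N) :
    TangentSpace I n →L[ℝ] TangentSpace I n →L[ℝ] ℝ :=
  let D : E →L[ℝ] E := mfderiv I I (hf.localInverseAt (Function.surjInv hs n)) n
  let B : E →L[ℝ] E →L[ℝ] ℝ := g.inner (hf.localInverseAt (Function.surjInv hs n) n)
  let G : E →L[ℝ] E →L[ℝ] ℝ := B.bilinearComp D D
  G

omit [IsManifold I ∞ N] in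
lemma innerN_apply (hf : IsLocalHomeomorph f) (hs : Function.Surjective f) (g : Metric I M) (n : N)
    (v w : TangentSpace I n) : innerN hf hs g n v w =
    g.inner (hf.localInverseAt (Function.surjInv hs n) n)
      (mfderiv I I (hf.localInverseAt (Function.surjInv hs n)) n v)
      (mfderiv I I (hf.localInverseAt (Function.surjInv hs n)) n w) := rfl

/-- transport of the inner product along an equality of points -/
lemma inner_congr (g : Metric I M) {x y : M} (h : x = y) (v w : E) :
    (g.inner x : E →L[ℝ] E →L[ℝ] ℝ) v w = (g.inner y : E →L[ℝ] E →L[ℝ] ℝ) v w := by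
  subst h; rfl

/-- any local inverse computes the inner product -/
theorem innerN_local (hf : IsLocalHomeomorph f) (hs : Function.Surjective f)
    (hc : ∀ q : N, ∃ x : M, chartAt H q = (hf.localInverseAt x).trans (chartAt H x))
    {g : Metric I M} (hg : GDeck g f) (a : M) {n : N} (hn : n ∈ (hf.localInverseAt a).source)
    (v w : TangentSpace I n) :
    innerN hf hs g n v w = g.inner (hf.localInverseAt a n)
      (mfderiv I I (hf.localInverseAt a) n v) (mfderiv I I (hf.localInverseAt a) n w) := by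
  rw [innerN_apply]
  set s := Function.surjInv hs n with hsdef
  have hfs : f s = n := Function.surjInv_eq hs n
  have hns : n ∈ (hf.localInverseAt s).source := by
    have := hf.apply_self_mem_localInverseAt_source (x := s)
    rwa [hfs] at this
  have h1 : f (hf.localInverseAt s n) = f (hf.localInverseAt a n) := by
    rw [hf.apply_localInverseAt_of_mem hns, hf.apply_localInverseAt_of_mem hn]
  obtain ⟨φ, p1, p2, p3, p4⟩ := hg _ _ h1
  have hφt : φ (hf.localInverseAt s n) ∈ (hf.localInverseAt a).target := by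
    rw [p2]; exact (hf.localInverseAt a).map_source hn
  have he := transition_eventuallyEq hf p1.continuous p3 hφt
  have hcs : ContinuousAt (hf.localInverseAt s) n := (hf.localInverseAt s).continuousAt hns
  have he2 : (hf.localInverseAt a : N → M) =ᶠ[𝓝 n] fun m => φ (hf.localInverseAt s m) := by
    filter_upwards [hcs.eventually he, (hf.localInverseAt s).open_source.mem_nhds hns] with m hm hm2
    rw [← hm, hf.apply_localInverseAt_of_mem hm2]
  have hd1 : MDifferentiableAt I I (hf.localInverseAt s) n :=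
    (inv_contMDiffAt hf hg.deck hc s hns).mdifferentiableAt (by simp)
  have hd2 : MDifferentiableAt I I φ (hf.localInverseAt s n) :=
    (p1.contMDiffAt).mdifferentiableAt (by simp)
  have h3 := he2.mfderiv_eq (I := I) (I' := I)
  have h4 : mfderiv I I (fun m => φ (hf.localInverseAt s m)) n =
      (mfderiv I I φ (hf.localInverseAt s n)).comp (mfderiv I I (hf.localInverseAt s) n) :=
    mfderiv_comp n hd2 hd1
  have h5 : ∀ u : E, (mfderiv I I (hf.localInverseAt a) n : E →L[ℝ] E) u =
      (mfderiv I I φ (hf.localInverseAt s n) : E →L[ℝ] E)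
        ((mfderiv I I (hf.localInverseAt s) n : E →L[ℝ] E) u) := by
    intro u
    have h6 : (mfderiv I I (hf.localInverseAt a) n : E →L[ℝ] E) u =
      (mfderiv I I (fun m => φ (hf.localInverseAt s m)) n : E →L[ℝ] E) u :=
      congrArg (fun L : E →L[ℝ] E => L u) h3
    rw [h6]
    exact congrArg (fun L : E →L[ℝ] E => L u) h4
  have h7 := p4 (hf.localInverseAt s n) (mfderiv I I (hf.localInverseAt s) n v)
    (mfderiv I I (hf.localInverseAt s) n w)
  rw [← h7]
  have h8 : (g.inner (hf.localInverseAt a n) : E →L[ℝ] E →L[ℝ] ℝ)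
      ((mfderiv I I (hf.localInverseAt a) n : E →L[ℝ] E) v)
      ((mfderiv I I (hf.localInverseAt a) n : E →L[ℝ] E) w) =
      (g.inner (φ (hf.localInverseAt s n)) : E →L[ℝ] E →L[ℝ] ℝ)
      ((mfderiv I I (hf.localInverseAt a) n : E →L[ℝ] E) v)
      ((mfderiv I I (hf.localInverseAt a) n : E →L[ℝ] E) w) := inner_congr g p2.symm _ _
  refine Eq.trans ?_ h8.symm
  rw [h5 v, h5 w]

/-- the pullback to the covering manifold -/
theorem innerN_induced (hf : IsLocalHomeomorph f) (hs : Function.Surjective f)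
    (hc : ∀ q : N, ∃ x : M, chartAt H q = (hf.localInverseAt x).trans (chartAt H x))
    {g : Metric I M} (hg : GDeck g f) (x : M) (v w : TangentSpace I x) :
    innerN hf hs g (f x) (mfderiv I I f x v) (mfderiv I I f x w) = g.inner x v w := by
  have hsrc : f x ∈ (hf.localInverseAt x).source := hf.apply_self_mem_localInverseAt_source
  rw [innerN_local hf hs hc hg x hsrc]
  have hd1 : MDifferentiableAt I I f x :=
    (f_contMDiffAt hf hg.deck hc x).mdifferentiableAt (by simp)
  have hd2 : MDifferentiableAt I I (hf.localInverseAt x) (f x) :=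
    (inv_contMDiffAt hf hg.deck hc x hsrc).mdifferentiableAt (by simp)
  have he : (hf.localInverseAt x ∘ f) =ᶠ[𝓝 x] id := by
    filter_upwards [(hf.localInverseAt x).open_target.mem_nhds
      hf.self_mem_localInverseAt_target] with m hm
    exact localInverseAt_apply hf x hm
  have h3 := he.mfderiv_eq (I := I) (I' := I)
  have h4 := mfderiv_comp x hd2 hd1
  have h5 : ∀ u : E, (mfderiv I I (hf.localInverseAt x) (f x) : E →L[ℝ] E)
      ((mfderiv I I f x : E →L[ℝ] E) u) = u := by
    intro u
    have h6 : (mfderiv I I (hf.localInverseAt x ∘ f) x : E →L[ℝ] E) u = u := by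
      have : (mfderiv I I (hf.localInverseAt x ∘ f) x : E →L[ℝ] E) u =
        (mfderiv I I (id : M → M) x : E →L[ℝ] E) u := congrArg (fun L : E →L[ℝ] E => L u) h3
      rw [this, mfderiv_id]
      rfl
    refine Eq.trans ?_ h6
    exact (congrArg (fun L : E →L[ℝ] E => L u) h4).symm
  have h8 := inner_congr g (hf.localInverseAt_apply_self (x := x))
    ((mfderiv I I (hf.localInverseAt x) (f x) : E →L[ℝ] E) ((mfderiv I I f x : E →L[ℝ] E) v))
    ((mfderiv I I (hf.localInverseAt x) (f x) : E →L[ℝ] E) ((mfderiv I I f x : E →L[ℝ] E) w))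
  refine Eq.trans h8 ?_
  rw [h5, h5]

end Pool.Agent.Y503.HC
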