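import Pool.Agent.Y503.HC.QMetric

/-! Smoothness of the Riemannian metric on the quotient. -/

set_option autoImplicit false

open scoped Manifold ContDiff Topology
open Set Bundle Bornology Filter

noncomputable section

namespace Pool.Agent.Y503.HC

variable {E : Type} [NormedAddCommGroup E] [NormedSpace ℝ E] {H : Type} [TopologicalSpace H]
  {I : ModelWithCorners ℝ E H} [I.Boundaryless]
  {M : Type} [TopologicalSpace M] [ChartedSpace H M] [IsManifold I ∞ M]
  {N : Type} [TopologicalSpace N] {f : M → N} [ChartedSpace H N] [IsManifold I ∞ N]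

/-- A positive definite form on a finite dimensional space has bounded unit ball. -/
lemma isVonNBounded_of_pos [FiniteDimensional ℝ E] (B : E →L[ℝ] E →L[ℝ] ℝ)
    (hpos : ∀ v, v ≠ 0 → 0 < B v v) : IsVonNBounded ℝ {v : E | B v v < 1} := by
  rw [NormedSpace.isVonNBounded_iff]
  rcases subsingleton_or_nontrivial E with hE | hE
  · exact (Set.toFinite {v : E | B v v < 1}).isBounded
  have hc : Continuous fun v : E => B v v := by fun_prop
  have hK : IsCompact (Metric.sphere (0 : E) 1) := isCompact_sphere _ _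
  have hne : (Metric.sphere (0 : E) 1).Nonempty := NormedSpace.sphere_nonempty.2 zero_le_one
  obtain ⟨v0, hv0, hmin⟩ := hK.exists_isMinOn hne hc.continuousOn
  have hv0' : v0 ≠ 0 := by
    intro h
    rw [h] at hv0
    simp at hv0
  set c := B v0 v0 with hcdef
  have hcpos : 0 < c := hpos v0 hv0'
  rw [isBounded_iff_forall_norm_le]
  refine ⟨√(1 / c), fun v hv => ?_⟩
  by_cases hv0 : v = 0
  · rw [hv0, norm_zero]; exact Real.sqrt_nonneg _
  have hn : 0 < ‖v‖ := norm_pos_iff.2 hv0
  have h1 : c ≤ B (‖v‖⁻¹ • v) (‖v‖⁻¹ • v) := by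
    apply hmin
    simp [norm_smul, hn.ne']
  have h2 : B (‖v‖⁻¹ • v) (‖v‖⁻¹ • v) = B v v / ‖v‖ ^ 2 := by
    simp only [map_smul, _root_.smul_apply, smul_eq_mul]
    field_simp
  rw [h2, le_div_iff₀ (by positivity)] at h1
  have h3 : B v v < 1 := hv
  apply Real.le_sqrt_of_sq_le
  rw [le_div_iff₀ hcpos]
  linarith

lemma mdiff_ext_symm (p : M) {y : E} (hy : y ∈ (extChartAt I p).target) :
    MDifferentiableAt 𝓘(ℝ, E) I (extChartAt I p).symm y := by
  have := (contMDiffOn_extChartAt_symm (I := I) (n := ∞) p) y hy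
  exact (this.contMDiffAt (extChartAt_target_mem_nhds' hy)).mdifferentiableAt (by simp)

theorem contMDiff_innerN (hf : IsLocalHomeomorph f) (hs : Function.Surjective f)
    (hc : ∀ q : N, ∃ x : M, f x = q ∧ chartAt H q = (hf.localInverseAt x).trans (chartAt H x))
    {g : Metric I M} (hg : GDeck g f) :
    ContMDiff I (I.prod 𝓘(ℝ, E →L[ℝ] E →L[ℝ] ℝ)) ∞
      (fun n : N => TotalSpace.mk' (E →L[ℝ] E →L[ℝ] ℝ)
        (E := fun n : N => TangentSpace I n →L[ℝ] TangentSpace I n →L[ℝ] ℝ) n
        (innerN hf hs g n)) := by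
  have hc' : ∀ q : N, ∃ x : M, chartAt H q = (hf.localInverseAt x).trans (chartAt H x) :=
    fun q => let ⟨x, _, h⟩ := hc q; ⟨x, h⟩
  intro n0
  rw [smooth_iff_cform]
  obtain ⟨a, ha, hch⟩ := hc n0
  have hσ0 : hf.localInverseAt a n0 = a := by rw [← ha]; exact hf.localInverseAt_apply_self
  have hn0 : n0 ∈ (hf.localInverseAt a).source := by
    rw [← ha]; exact hf.apply_self_mem_localInverseAt_source
  have h1 := (smooth_iff_cform (fun p => g.inner p) a).1 (g.contMDiff a)
  have h2 : ContMDiffAt I I ∞ (hf.localInverseAt a) n0 := inv_contMDiffAt hf hg.deck hc' a hn0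
  have h3 : ContMDiffAt I 𝓘(ℝ, E →L[ℝ] E →L[ℝ] ℝ) ∞
      (fun p => cform (fun p => g.inner p) a (extChartAt I a p)) (hf.localInverseAt a n0) := by
    rw [hσ0]; exact h1
  have h4 := h3.comp n0 h2
  refine h4.congr_of_eventuallyEq ?_
  filter_upwards [(chartAt H n0).open_source.mem_nhds (mem_chart_source H n0)] with n hn
  have hn' : n ∈ (hf.localInverseAt a).source ∧ hf.localInverseAt a n ∈ (chartAt H a).source := by
    rw [hch] at hn; simpa only [mfld_simps] using hn
  have hE : extChartAt I n0 n = extChartAt I a (hf.localInverseAt a n) := by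
    simp only [extChartAt, OpenPartialHomeomorph.extend_coe, hch, Function.comp_apply]
    rfl
  have hS : ∀ y, (extChartAt I n0).symm y = f ((extChartAt I a).symm y) := by
    intro y
    simp only [extChartAt, OpenPartialHomeomorph.extend_coe_symm, hch, Function.comp_apply]
    simp
  show cform (innerN hf hs g) n0 (extChartAt I n0 n) =
    cform (fun p => g.inner p) a (extChartAt I a (hf.localInverseAt a n))
  rw [hE]
  set m := hf.localInverseAt a n with hm
  set y := extChartAt I a m with hy
  have hms : m ∈ (extChartAt I a).source := by rw [extChartAt_source]; exact hn'.2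
  have hyt : y ∈ (extChartAt I a).target := (extChartAt I a).map_source hms
  have hym : (extChartAt I a).symm y = m := (extChartAt I a).left_inv hms
  have hyt' : y ∈ (extChartAt I n0).target := by
    rw [← hE]
    apply (extChartAt I n0).map_source
    rw [extChartAt_source]; exact hn
  have hyn : (extChartAt I n0).symm y = n := by
    rw [← hE]
    apply (extChartAt I n0).left_inv
    rw [extChartAt_source]; exact hn
  -- the two inverse charts
  have hmt : m ∈ (hf.localInverseAt a).target := (hf.localInverseAt a).map_source hn'.1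
  have he : (fun z => hf.localInverseAt a ((extChartAt I n0).symm z)) =ᶠ[𝓝 y]
      (extChartAt I a).symm := by
    have hcont : ContinuousAt (extChartAt I a).symm y := (mdiff_ext_symm a hyt).continuousAt
    have : ∀ᶠ z in 𝓝 y, (extChartAt I a).symm z ∈ (hf.localInverseAt a).target := by
      apply hcont.eventually
      rw [hym]
      exact (hf.localInverseAt a).open_target.mem_nhds hmt
    filter_upwards [this] with z hz
    rw [hS, localInverseAt_apply hf a hz]
  have hd1 : MDifferentiableAt 𝓘(ℝ, E) I (extChartAt I n0).symm y := mdiff_ext_symm n0 hyt'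
  have hd2 : MDifferentiableAt I I (hf.localInverseAt a) ((extChartAt I n0).symm y) := by
    rw [hyn]
    exact (inv_contMDiffAt hf hg.deck hc' a hn'.1).mdifferentiableAt (by simp)
  have h5 := he.mfderiv_eq (I := 𝓘(ℝ, E)) (I' := I)
  have h6 : mfderiv 𝓘(ℝ, E) I (fun z => hf.localInverseAt a ((extChartAt I n0).symm z)) y =
      (mfderiv I I (hf.localInverseAt a) ((extChartAt I n0).symm y)).comp
        (mfderiv 𝓘(ℝ, E) I (extChartAt I n0).symm y) := mfderiv_comp y hd2 hd1
  have h7 : ∀ u : E, (mfderiv I I (hf.localInverseAt a) ((extChartAt I n0).symm y) : E →L[ℝ] E)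
      (Dch (I := I) n0 y u) = Dch (I := I) a y u := by
    intro u
    have e1 : (mfderiv 𝓘(ℝ, E) I (fun z => hf.localInverseAt a ((extChartAt I n0).symm z)) y :
        E →L[ℝ] E) u = (mfderiv 𝓘(ℝ, E) I (extChartAt I a).symm y : E →L[ℝ] E) u :=
      congrArg (fun L : E →L[ℝ] E => L u) h5
    have e2 : (mfderiv 𝓘(ℝ, E) I (fun z => hf.localInverseAt a ((extChartAt I n0).symm z)) y :
        E →L[ℝ] E) u = (mfderiv I I (hf.localInverseAt a) ((extChartAt I n0).symm y) : E →L[ℝ] E)
          ((mfderiv 𝓘(ℝ, E) I (extChartAt I n0).symm y : E →L[ℝ] E) u) :=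
      congrArg (fun L : E →L[ℝ] E => L u) h6
    exact e2.symm.trans e1
  ext u v
  have hnn : (extChartAt I n0).symm y ∈ (hf.localInverseAt a).source := by rw [hyn]; exact hn'.1
  have e3 := innerN_local hf hs hc' hg a hnn (Dch (I := I) n0 y u) (Dch (I := I) n0 y v)
  have e4 : (cform (innerN hf hs g) n0 y u) v =
      innerN hf hs g ((extChartAt I n0).symm y) (Dch (I := I) n0 y u) (Dch (I := I) n0 y v) := rfl
  rw [e4, e3]
  have e5 : (cform (fun p => g.inner p) a y u) v =
      (g.inner ((extChartAt I a).symm y) : E →L[ℝ] E →L[ℝ] ℝ) (Dch (I := I) a y u)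
        (Dch (I := I) a y v) := rfl
  rw [e5]
  have e6 : hf.localInverseAt a ((extChartAt I n0).symm y) = (extChartAt I a).symm y := by
    rw [hyn, hym]
  refine (inner_congr g e6 _ _).trans ?_
  have e7 := h7 u
  have e8 := h7 v
  erw [e7, e8]

theorem innerN_pos (hf : IsLocalHomeomorph f) (hs : Function.Surjective f)
    (hc' : ∀ q : N, ∃ x : M, chartAt H q = (hf.localInverseAt x).trans (chartAt H x))
    {g : Metric I M} (hg : GDeck g f) (n : N) (v : TangentSpace I n) (hv : v ≠ 0) :
    0 < innerN hf hs g n v v := by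
  rw [innerN_apply]
  apply g.pos
  intro h0
  apply hv
  set a := Function.surjInv hs n with ha
  have hfa : f a = n := Function.surjInv_eq hs n
  have hn : n ∈ (hf.localInverseAt a).source := by
    have := hf.apply_self_mem_localInverseAt_source (x := a)
    rwa [hfa] at this
  have hd1 : MDifferentiableAt I I f (hf.localInverseAt a n) :=
    (f_contMDiffAt hf hg.deck hc' _).mdifferentiableAt (by simp)
  have hd2 : MDifferentiableAt I I (hf.localInverseAt a) n :=
    (inv_contMDiffAt hf hg.deck hc' a hn).mdifferentiableAt (by simp)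
  have he : (f ∘ hf.localInverseAt a) =ᶠ[𝓝 n] id := by
    filter_upwards [(hf.localInverseAt a).open_source.mem_nhds hn] with m hm
    exact hf.apply_localInverseAt_of_mem hm
  have h1 := he.mfderiv_eq (I := I) (I' := I)
  have h2 := mfderiv_comp n hd1 hd2
  have h3 : (mfderiv I I (f ∘ hf.localInverseAt a) n : E →L[ℝ] E) v = v := by
    have : (mfderiv I I (f ∘ hf.localInverseAt a) n : E →L[ℝ] E) v =
      (mfderiv I I (id : N → N) n : E →L[ℝ] E) v := congrArg (fun L : E →L[ℝ] E => L v) h1
    rw [this, mfderiv_id]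
    rfl
  have h4 : (mfderiv I I (f ∘ hf.localInverseAt a) n : E →L[ℝ] E) v =
      (mfderiv I I f (hf.localInverseAt a n) : E →L[ℝ] E)
        ((mfderiv I I (hf.localInverseAt a) n : E →L[ℝ] E) v) :=
    congrArg (fun L : E →L[ℝ] E => L v) h2
  have h5 : (mfderiv I I (hf.localInverseAt a) n : E →L[ℝ] E) v = 0 := h0
  rw [h5, map_zero] at h4
  exact h3.symm.trans h4

/-- the Riemannian metric on the quotient -/
def metricN [FiniteDimensional ℝ E] (hf : IsLocalHomeomorph f) (hs : Function.Surjective f)
    (hc : ∀ q : N, ∃ x : M, f x = q ∧ chartAt H q = (hf.localInverseAt x).trans (chartAt H x))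
    {g : Metric I M} (hg : GDeck g f) : Metric I N where
  inner n := innerN hf hs g n
  symm n v w := by rw [innerN_apply, innerN_apply]; exact g.symm _ _ _
  pos n v hv := innerN_pos hf hs (fun q => let ⟨x, _, h⟩ := hc q; ⟨x, h⟩) hg n v hv
  isVonNBounded n := isVonNBounded_of_pos (E := E) (innerN hf hs g n)
    (fun v hv => innerN_pos hf hs (fun q => let ⟨x, _, h⟩ := hc q; ⟨x, h⟩) hg n v hv)
  contMDiff := contMDiff_innerN hf hs hc hg

end Pool.Agent.Y503.HC
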