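import Pool.Agent.Y503.HC.Mid

/-! Multiplications by unit quaternions on the Stiefel manifold. -/

set_option autoImplicit false

open scoped Manifold ContDiff Topology ENNReal Quaternion
open Set Module InnerProductGeometry Filter Real

noncomputable section

namespace Pool.Agent.Y503.HC

/-! ### Algebra -/

lemma re_mul_comm (x y : ℍ[ℝ]) : (x * y).re = (y * x).re := by
  simp only [Quaternion.re_mul]; ring

lemma inner_mul_left' {v : ℍ[ℝ]} (hv : ‖v‖ = 1) (p q : ℍ[ℝ]) :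
    inner ℝ (v * p) (v * q) = inner ℝ p q := by
  rw [inner_eq_re, inner_eq_re, star_mul, mul_assoc, ← mul_assoc (star v),
    star_mul_self_unit hv, one_mul]

lemma inner_mul_right' {v : ℍ[ℝ]} (hv : ‖v‖ = 1) (p q : ℍ[ℝ]) :
    inner ℝ (p * v) (q * v) = inner ℝ p q := by
  rw [inner_eq_re, inner_eq_re, star_mul, mul_assoc, re_mul_comm, ← mul_assoc, mul_assoc,
    self_mul_star_unit hv, mul_one]

/-- left multiplication -/
def lm (a : ℍ[ℝ]) (F : VV) : VV := pr (a * F.fst) (a * F.snd)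

/-- right multiplication -/
def rm (F : VV) (b : ℍ[ℝ]) : VV := pr (F.fst * b) (F.snd * b)

@[simp] lemma lm_fst (a : ℍ[ℝ]) (F : VV) : (lm a F).fst = a * F.fst := rfl
@[simp] lemma lm_snd (a : ℍ[ℝ]) (F : VV) : (lm a F).snd = a * F.snd := rfl
@[simp] lemma rm_fst (F : VV) (b : ℍ[ℝ]) : (rm F b).fst = F.fst * b := rfl
@[simp] lemma rm_snd (F : VV) (b : ℍ[ℝ]) : (rm F b).snd = F.snd * b := rfl

lemma lm_V2 {a : ℍ[ℝ]} (ha : ‖a‖ = 1) {F : VV} (hF : F ∈ V2) : lm a F ∈ V2 := by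
  refine ⟨?_, ?_, ?_⟩
  · rw [lm_fst, norm_mul, ha, hF.1, mul_one]
  · rw [lm_snd, norm_mul, ha, hF.2.1, mul_one]
  · rw [lm_fst, lm_snd, inner_mul_left' ha]; exact hF.2.2

lemma rm_V2 {b : ℍ[ℝ]} (hb : ‖b‖ = 1) {F : VV} (hF : F ∈ V2) : rm F b ∈ V2 := by
  refine ⟨?_, ?_, ?_⟩
  · rw [rm_fst, norm_mul, hb, hF.1, mul_one]
  · rw [rm_snd, norm_mul, hb, hF.2.1, mul_one]
  · rw [rm_fst, rm_snd, inner_mul_right' hb]; exact hF.2.2

lemma inner_vv (X Y : VV) : inner ℝ X Y = inner ℝ X.fst Y.fst + inner ℝ X.snd Y.snd :=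
  WithLp.prod_inner_apply X Y

/-- the quaternion `i` -/
def qi : ℍ[ℝ] := ⟨0, 1, 0, 0⟩

@[simp] lemma qi_re : qi.re = 0 := rfl
@[simp] lemma qi_i : qi.imI = 1 := rfl
@[simp] lemma qi_j : qi.imJ = 0 := rfl
@[simp] lemma qi_k : qi.imK = 0 := rfl

lemma norm_one_of_sq {a : ℍ[ℝ]} (h : ‖a‖ ^ 2 = 1) : ‖a‖ = 1 :=
  (pow_eq_one_iff_of_nonneg (norm_nonneg _) two_ne_zero).1 h

lemma norm_qi : ‖qi‖ = 1 := by
  apply norm_one_of_sq
  rw [norm_sq_q]; simp

/-- polar form of a unit quaternion -/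
lemma polar {a : ℍ[ℝ]} (ha : ‖a‖ = 1) : ∃ A : ℍ[ℝ], A.re = 0 ∧ ‖A‖ = 1 ∧
    a = cos (arccos a.re) • (1 : ℍ[ℝ]) + sin (arccos a.re) • A := by
  have h1 : a.re ^ 2 + a.imI ^ 2 + a.imJ ^ 2 + a.imK ^ 2 = 1 := by
    rw [← norm_sq_q, ha]; norm_num
  have h2 : -1 ≤ a.re := by nlinarith [sq_nonneg a.imI, sq_nonneg a.imJ, sq_nonneg a.imK]
  have h3 : a.re ≤ 1 := by nlinarith [sq_nonneg a.imI, sq_nonneg a.imJ, sq_nonneg a.imK]
  rw [cos_arccos h2 h3, sin_arccos]
  have h4 : (√(1 - a.re ^ 2)) ^ 2 = 1 - a.re ^ 2 := Real.sq_sqrt (by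
    nlinarith [sq_nonneg a.imI, sq_nonneg a.imJ, sq_nonneg a.imK])
  by_cases hs : √(1 - a.re ^ 2) = 0
  · rw [hs] at h4
    have i1 : a.imI = 0 := by
      have : a.imI ^ 2 = 0 := by nlinarith [sq_nonneg a.imI, sq_nonneg a.imJ, sq_nonneg a.imK]
      exact pow_eq_zero_iff (two_ne_zero) |>.1 this
    have i2 : a.imJ = 0 := by
      have : a.imJ ^ 2 = 0 := by nlinarith [sq_nonneg a.imI, sq_nonneg a.imJ, sq_nonneg a.imK]
      exact pow_eq_zero_iff (two_ne_zero) |>.1 this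
    have i3 : a.imK = 0 := by
      have : a.imK ^ 2 = 0 := by nlinarith [sq_nonneg a.imI, sq_nonneg a.imJ, sq_nonneg a.imK]
      exact pow_eq_zero_iff (two_ne_zero) |>.1 this
    refine ⟨qi, rfl, norm_qi, ?_⟩
    · rw [hs, zero_smul, add_zero]
      ext <;> simp [i1, i2, i3]
  · refine ⟨(√(1 - a.re ^ 2))⁻¹ • a.im, by simp, ?_, ?_⟩
    · apply norm_one_of_sq
      rw [norm_smul, mul_pow, norm_inv, inv_pow, Real.norm_eq_abs, sq_abs, h4, norm_sq_q]
      have h5 : 1 - a.re ^ 2 ≠ 0 := by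
        intro h
        apply hs
        rw [h]
        exact Real.sqrt_zero
      simp only [Quaternion.re_im, Quaternion.imI_im, Quaternion.imJ_im, Quaternion.imK_im]
      field_simp
      linarith
    · rw [smul_smul, mul_inv_cancel₀ hs, one_smul]
      ext <;> simp

lemma norm_cos_sin {A : ℍ[ℝ]} (h0 : A.re = 0) (h1 : ‖A‖ = 1) (t : ℝ) :
    ‖cos t • (1 : ℍ[ℝ]) + sin t • A‖ = 1 := by
  have hA : A.re ^ 2 + A.imI ^ 2 + A.imJ ^ 2 + A.imK ^ 2 = 1 := by
    rw [← norm_sq_q, h1]; norm_num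
  have : ‖cos t • (1 : ℍ[ℝ]) + sin t • A‖ ^ 2 = 1 := by
    rw [norm_sq_q]
    simp [h0]
    rw [h0] at hA
    linear_combination sin_sq_add_cos_sq t + sin t ^ 2 * hA
  exact (pow_eq_one_iff_of_nonneg (norm_nonneg _) two_ne_zero).1 this

lemma inner_one_re (A : ℍ[ℝ]) : inner ℝ (1 : ℍ[ℝ]) A = A.re := by
  rw [inner_q]; simp

/-- displacement of a left multiplication -/
theorem dist_lm {x y : MM} {a : ℍ[ℝ]} (ha : ‖a‖ = 1) (hy : emb y = lm a (emb x)) :
    dist gM x y = ENNReal.ofReal (√2 * arccos a.re) := by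
  obtain ⟨A, A0, A1, hA⟩ := polar ha
  have harc : ∀ t, arc (emb x) (lm A (emb x)) t = lm (cos t • (1 : ℍ[ℝ]) + sin t • A) (emb x) := by
    intro t
    unfold arc
    apply vv_ext
    · simp [add_mul]
    · simp [add_mul]
  refine dist_arc (K := lm A (emb x)) (arccos_nonneg _) (arccos_le_pi _)
    (norm_V2 (lm_V2 A1 (emb_mem x))) ?_ ?_ ?_
  · rw [inner_vv, lm_fst, lm_snd]
    have e1 := inner_mul_right' (emb_mem x).1 1 A
    have e2 := inner_mul_right' (emb_mem x).2.1 1 A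
    rw [one_mul, inner_one_re, A0] at e1 e2
    rw [e1, e2, add_zero]
  · intro t
    rw [harc]
    exact lm_V2 (norm_cos_sin A0 A1 t) (emb_mem x)
  · rw [harc, ← hA, hy]

/-- displacement of a right multiplication -/
theorem dist_rm {x y : MM} {b : ℍ[ℝ]} (hb : ‖b‖ = 1) (hy : emb y = rm (emb x) b) :
    dist gM x y = ENNReal.ofReal (√2 * arccos b.re) := by
  obtain ⟨A, A0, A1, hA⟩ := polar hb
  have harc : ∀ t, arc (emb x) (rm (emb x) A) t = rm (emb x) (cos t • (1 : ℍ[ℝ]) + sin t • A) := by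
    intro t
    unfold arc
    apply vv_ext
    · simp [mul_add]
    · simp [mul_add]
  refine dist_arc (K := rm (emb x) A) (arccos_nonneg _) (arccos_le_pi _)
    (norm_V2 (rm_V2 A1 (emb_mem x))) ?_ ?_ ?_
  · rw [inner_vv, rm_fst, rm_snd]
    have e1 := inner_mul_left' (emb_mem x).1 1 A
    have e2 := inner_mul_left' (emb_mem x).2.1 1 A
    rw [mul_one, inner_one_re, A0] at e1 e2
    rw [e1, e2, add_zero]
  · intro t
    rw [harc]
    exact rm_V2 (norm_cos_sin A0 A1 t) (emb_mem x)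
  · rw [harc, ← hA, hy]

/-- the antipode -/
def ng (x : MM) : MM := (-x.1, x.2)

lemma emb_ng (x : MM) : emb (ng x) = -emb x := by
  apply vv_ext
  · rfl
  · show ((-x.1 : S3) : ℍ[ℝ]) * im (x.2 : E3) = -((x.1 : ℍ[ℝ]) * im (x.2 : E3))
    rw [← neg_mul]; rfl

lemma ng_ng (x : MM) : ng (ng x) = x := by
  apply emb_injective
  rw [emb_ng, emb_ng, neg_neg]

lemma star_re' (a : ℍ[ℝ]) : (star a).re = a.re := by simp

/-- the sum of the distances to a point and to its antipode, left multiplication -/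
theorem sum_lm {y y' : MM} {a : ℍ[ℝ]} (ha : ‖a‖ = 1) (hy : emb y' = lm a (emb y)) :
    dist gM y y' + dist gM y' (ng y) = ENNReal.ofReal (√2 * π) := by
  have h1 : emb (ng y) = lm (-star a) (emb y') := by
    rw [emb_ng, hy]
    apply vv_ext
    · rw [lm_fst, lm_fst, ← mul_assoc, neg_mul, star_mul_self_unit ha]; simp
    · rw [lm_snd, lm_snd, ← mul_assoc, neg_mul, star_mul_self_unit ha]; simp
  rw [dist_lm ha hy, dist_lm (by rw [norm_neg, norm_star, ha]) h1, ← ENNReal.ofReal_add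
    (mul_nonneg (sqrt_nonneg _) (arccos_nonneg _)) (mul_nonneg (sqrt_nonneg _) (arccos_nonneg _))]
  congr 1
  rw [Quaternion.re_neg, Quaternion.re_star, arccos_neg]
  ring

/-- the sum of the distances to a point and to its antipode, right multiplication -/
theorem sum_rm {y y' : MM} {b : ℍ[ℝ]} (hb : ‖b‖ = 1) (hy : emb y' = rm (emb y) b) :
    dist gM y y' + dist gM y' (ng y) = ENNReal.ofReal (√2 * π) := by
  have h1 : emb (ng y) = rm (emb y') (-star b) := by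
    rw [emb_ng, hy]
    apply vv_ext
    · rw [rm_fst, rm_fst, mul_assoc, mul_neg, self_mul_star_unit hb]; simp
    · rw [rm_snd, rm_snd, mul_assoc, mul_neg, self_mul_star_unit hb]; simp
  rw [dist_rm hb hy, dist_rm (by rw [norm_neg, norm_star, hb]) h1, ← ENNReal.ofReal_add
    (mul_nonneg (sqrt_nonneg _) (arccos_nonneg _)) (mul_nonneg (sqrt_nonneg _) (arccos_nonneg _))]
  congr 1
  rw [Quaternion.re_neg, Quaternion.re_star, arccos_neg]
  ring

/-- the distance to the antipode -/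
theorem dist_ng (x : MM) : dist gM x (ng x) = ENNReal.ofReal (√2 * π) := by
  have h1 : emb (ng x) = lm (-1) (emb x) := by
    rw [emb_ng]
    apply vv_ext <;> simp
  rw [dist_lm (by simp) h1]
  simp

end Pool.Agent.Y503.HC
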