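import Pool.Agent.Y503.HC.Defs

/-! The smooth structure on the quotient of a manifold by smooth deck maps. -/

set_option autoImplicit false

open scoped Manifold ContDiff Topology
open Set

noncomputable section

namespace Pool.Agent.Y503.HC

variable {E : Type} [NormedAddCommGroup E] [NormedSpace ℝ E] {H : Type} [TopologicalSpace H]
  {I : ModelWithCorners ℝ E H}
  {M : Type} [TopologicalSpace M] [ChartedSpace H M] [IsManifold I ∞ M]
  {N : Type} [TopologicalSpace N] {f : M → N}

variable (I) in
/-- the fibres of `f` are related by smooth deck maps -/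
def Deck (f : M → N) : Prop :=
  ∀ x y : M, f x = f y → ∃ φ : M → M, ContMDiff I I ∞ φ ∧ φ x = y ∧ ∀ z, f (φ z) = f z

omit [IsManifold I ∞ M] in
lemma localInverseAt_apply (hf : IsLocalHomeomorph f) (a : M) {w : M}
    (hw : w ∈ (hf.localInverseAt a).target) : hf.localInverseAt a (f w) = w := by
  have := (hf.localInverseAt a).right_inv hw
  rwa [hf.localInverseAt_symm a] at this

omit [IsManifold I ∞ M] in
lemma transition_eventuallyEq (hf : IsLocalHomeomorph f) {φ : M → M} (h1 : Continuous φ)
    (h3 : ∀ z, f (φ z) = f z) {y z : M} (hz : φ z ∈ (hf.localInverseAt y).target) :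
    (fun w => hf.localInverseAt y (f w)) =ᶠ[𝓝 z] φ := by
  have : ∀ᶠ w in 𝓝 z, φ w ∈ (hf.localInverseAt y).target :=
    h1.continuousAt.eventually ((hf.localInverseAt y).open_target.mem_nhds hz)
  filter_upwards [this] with w hw
  rw [← h3 w, localInverseAt_apply hf y hw]

omit [IsManifold I ∞ M] in
lemma smooth_transition (hf : IsLocalHomeomorph f) (hd : Deck I f) (y z : M)
    (hz : f z ∈ (hf.localInverseAt y).source) :
    ContMDiffAt I I ∞ (fun w => hf.localInverseAt y (f w)) z := by
  obtain ⟨φ, h1, h2, h3⟩ := hd z (hf.localInverseAt y (f z))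
    (hf.apply_localInverseAt_of_mem hz).symm
  refine h1.contMDiffAt.congr_of_eventuallyEq (transition_eventuallyEq hf h1.continuous h3 ?_)
  rw [h2]
  exact (hf.localInverseAt y).map_source hz

/-- the quotient is a smooth manifold -/
theorem quot_isManifold (hf : IsLocalHomeomorph f) (hs : Function.Surjective f) (hd : Deck I f) :
    @IsManifold ℝ _ E _ _ H _ I ∞ N _ (hf.chartedSpace hs) := by
  let _ : ChartedSpace H N := hf.chartedSpace hs
  apply isManifold_of_contDiffOn
  rintro e e' ⟨a, rfl⟩ ⟨b, rfl⟩
  generalize (hs.hasRightInverse.choose a) = a'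
  generalize (hs.hasRightInverse.choose b) = b'
  rw [← contMDiffOn_iff_contDiffOn]
  apply I.contMDiff.comp_contMDiffOn
  intro z hz
  obtain ⟨hz1, hz2⟩ := hz
  simp only [mem_preimage, mfld_simps] at hz1
  obtain ⟨⟨hz3, hz4⟩, hz5, hz6⟩ := hz1
  have e1 : ContMDiffWithinAt 𝓘(ℝ, E) I ∞ I.symm (I.symm ⁻¹'
      (((hf.localInverseAt a').trans (chartAt H a')).symm ≫ₕ
      ((hf.localInverseAt b').trans (chartAt H b'))).source ∩ range I) z :=
    (I.contMDiffOn_symm z hz2).mono inter_subset_right
  have e2 : ContMDiffAt I I ∞ (chartAt H a').symm (I.symm z) :=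
    (contMDiffOn_chart_symm (I := I) (x := a')).contMDiffAt
      ((chartAt H a').open_target.mem_nhds hz3)
  have e3 : ContMDiffAt I I ∞ (fun w => hf.localInverseAt b' (f w)) ((chartAt H a').symm (I.symm z)) := by
    apply smooth_transition hf hd
    simpa using hz5
  have e4 : ContMDiffAt I I ∞ (chartAt H b')
      (hf.localInverseAt b' (f ((chartAt H a').symm (I.symm z)))) := by
    apply (contMDiffOn_chart (I := I) (x := b')).contMDiffAt
    apply (chartAt H b').open_source.mem_nhds
    simpa using hz6
  have e34 : ContMDiffAt I I ∞ (fun w => chartAt H b' (hf.localInverseAt b' (f w)))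
      ((chartAt H a').symm (I.symm z)) :=
    ContMDiffAt.comp (g := chartAt H b') (f := fun w => hf.localInverseAt b' (f w)) _ e4 e3
  have e234 : ContMDiffAt I I ∞
      (fun h => chartAt H b' (hf.localInverseAt b' (f ((chartAt H a').symm h)))) (I.symm z) :=
    ContMDiffAt.comp (g := fun w => chartAt H b' (hf.localInverseAt b' (f w)))
      (f := (chartAt H a').symm) _ e34 e2
  have e5 := e234.comp_contMDiffWithinAt z e1
  refine e5.congr ?_ ?_
  · intro w _
    simp
  · simp

section Smooth

variable [ChartedSpace H N] [IsManifold I ∞ N]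

omit [IsManifold I ∞ M] [IsManifold I ∞ N] in
lemma chart_apply (hf : IsLocalHomeomorph f) {q : N} {x : M}
    (hx : chartAt H q = (hf.localInverseAt x).trans (chartAt H x)) {w : M}
    (hw : w ∈ (hf.localInverseAt x).target) (hw' : w ∈ (chartAt H x).source) :
    f w ∈ (chartAt H q).source ∧ chartAt H q (f w) = chartAt H x w := by
  rw [hx]
  have h1 := localInverseAt_apply hf x hw
  have h2 : f w ∈ (hf.localInverseAt x).source := by
    have := (hf.localInverseAt x).map_target hw
    rwa [hf.localInverseAt_symm] at this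
  constructor
  · simp only [mfld_simps]
    refine ⟨h2, ?_⟩
    rw [h1]; exact hw'
  · simp only [mfld_simps]
    rw [h1]

lemma f_contMDiffAt (hf : IsLocalHomeomorph f) (hd : Deck I f)
    (hc : ∀ q : N, ∃ x : M, chartAt H q = (hf.localInverseAt x).trans (chartAt H x)) (x : M) :
    ContMDiffAt I I ∞ f x := by
  obtain ⟨a, ha⟩ := hc (f x)
  have hsrc : f x ∈ (chartAt H (f x)).source := mem_chart_source H (f x)
  have hsrc' : f x ∈ (hf.localInverseAt a).source ∧
      hf.localInverseAt a (f x) ∈ (chartAt H a).source := by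
    rw [ha] at hsrc; simpa only [mfld_simps] using hsrc
  obtain ⟨φ, h1, h2, h3⟩ := hd x (hf.localInverseAt a (f x))
    (hf.apply_localInverseAt_of_mem hsrc'.1).symm
  have ht : φ x ∈ (hf.localInverseAt a).target := by
    rw [h2]; exact (hf.localInverseAt a).map_source hsrc'.1
  have ht' : φ x ∈ (chartAt H a).source := by rw [h2]; exact hsrc'.2
  have h4 : ContMDiffAt I I ∞ (chartAt H (f x)).symm (chartAt H a (φ x)) := by
    apply (contMDiffOn_chart_symm (I := I) (x := f x)).contMDiffAt
    apply (chartAt H (f x)).open_target.mem_nhds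
    have h5 := chart_apply hf ha ht ht'
    rw [← h5.2]
    exact (chartAt H (f x)).map_source h5.1
  have h5 : ContMDiffAt I I ∞ (chartAt H a) (φ x) :=
    (contMDiffOn_chart (I := I) (x := a)).contMDiffAt ((chartAt H a).open_source.mem_nhds ht')
  have h6 := h4.comp x (h5.comp x h1.contMDiffAt)
  refine h6.congr_of_eventuallyEq ?_
  have hev : ∀ᶠ w in 𝓝 x, φ w ∈ (hf.localInverseAt a).target ∩ (chartAt H a).source :=
    h1.continuous.continuousAt.eventually
      (((hf.localInverseAt a).open_target.inter (chartAt H a).open_source).mem_nhds ⟨ht, ht'⟩)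
  filter_upwards [hev] with w hw
  obtain ⟨h7, h8⟩ := chart_apply hf ha hw.1 hw.2
  show f w = (chartAt H (f x)).symm (chartAt H a (φ w))
  rw [← h8, (chartAt H (f x)).left_inv h7, h3]

lemma inv_contMDiffAt (hf : IsLocalHomeomorph f) (hd : Deck I f)
    (hc : ∀ q : N, ∃ x : M, chartAt H q = (hf.localInverseAt x).trans (chartAt H x)) (x : M) {m : N}
    (hm : m ∈ (hf.localInverseAt x).source) :
    ContMDiffAt I I ∞ (hf.localInverseAt x) m := by
  obtain ⟨a, ha⟩ := hc m
  have hsrc : m ∈ (chartAt H m).source := mem_chart_source H m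
  have hsrc' : m ∈ (hf.localInverseAt a).source ∧
      hf.localInverseAt a m ∈ (chartAt H a).source := by
    rw [ha] at hsrc; simpa only [mfld_simps] using hsrc
  set z := hf.localInverseAt a m with hz
  have hfz : f z = m := hf.apply_localInverseAt_of_mem hsrc'.1
  have h1 := smooth_transition hf hd x z (by rw [hfz]; exact hm)
  have h2 : ContMDiffAt I I ∞ (chartAt H m) m :=
    (contMDiffOn_chart (I := I) (x := m)).contMDiffAt
      ((chartAt H m).open_source.mem_nhds (mem_chart_source H m))
  have h3 : (chartAt H m) m = chartAt H a z := by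
    rw [ha]; rfl
  have h4 : ContMDiffAt I I ∞ (chartAt H a).symm (chartAt H m m) := by
    apply (contMDiffOn_chart_symm (I := I) (x := a)).contMDiffAt
    apply (chartAt H a).open_target.mem_nhds
    rw [h3]
    exact (chartAt H a).map_source hsrc'.2
  have h5 : (chartAt H a).symm (chartAt H m m) = z := by
    rw [h3, (chartAt H a).left_inv hsrc'.2]
  have h1' : ContMDiffAt I I ∞ (fun w => hf.localInverseAt x (f w))
      ((chartAt H a).symm (chartAt H m m)) := by rw [h5]; exact h1
  have h6 := (h1'.comp _ h4).comp m h2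
  refine h6.congr_of_eventuallyEq ?_
  have hcont : ContinuousAt (hf.localInverseAt a) m :=
    (hf.localInverseAt a).continuousAt hsrc'.1
  filter_upwards [(hf.localInverseAt a).open_source.mem_nhds hsrc'.1,
    hcont.eventually ((chartAt H a).open_source.mem_nhds hsrc'.2)] with w hw hw2
  show hf.localInverseAt x w = hf.localInverseAt x (f ((chartAt H a).symm (chartAt H m w)))
  have h7 : chartAt H m w = chartAt H a (hf.localInverseAt a w) := by rw [ha]; rfl
  rw [h7, (chartAt H a).left_inv hw2, hf.apply_localInverseAt_of_mem hw]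

/-- the projection is a local diffeomorphism -/
theorem f_localDiffeo (hf : IsLocalHomeomorph f) (hd : Deck I f)
    (hc : ∀ q : N, ∃ x : M, chartAt H q = (hf.localInverseAt x).trans (chartAt H x)) :
    IsLocalDiffeomorph I I ∞ f := by
  intro x
  refine ⟨{ toPartialEquiv := (hf.localInverseAt x).symm.toPartialEquiv
            open_source := (hf.localInverseAt x).open_target
            open_target := (hf.localInverseAt x).open_source
            contMDiffOn_toFun := ?_
            contMDiffOn_invFun := ?_ }, ?_, ?_⟩
  · intro z _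
    have h := f_contMDiffAt hf hd hc z
    have e : (hf.localInverseAt x).symm = f := hf.localInverseAt_symm x
    show ContMDiffWithinAt I I ∞ ((hf.localInverseAt x).symm) _ z
    rw [e]
    exact h.contMDiffWithinAt
  · intro m hm
    exact (inv_contMDiffAt hf hd hc x hm).contMDiffWithinAt
  · exact hf.self_mem_localInverseAt_target
  · intro z _
    exact (congrFun (hf.localInverseAt_symm x) z).symm

end Smooth

end Pool.Agent.Y503.HC
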