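import Pool.Agent.Y503.HC.Isom

/-! The Stiefel manifold is weakly symmetric. -/

set_option autoImplicit false

open scoped Manifold ContDiff Topology ENNReal Quaternion
open Set Module InnerProductGeometry

noncomputable section

namespace Pool.Agent.Y503.HC

lemma norm_sq_vv (X : VV) : ‖X‖ ^ 2 = ‖X.fst‖ ^ 2 + ‖X.snd‖ ^ 2 :=
  WithLp.prod_norm_sq_eq_of_L2 X

lemma norm_vv_eq {X Y : VV} (h : ‖X.fst‖ ^ 2 + ‖X.snd‖ ^ 2 = ‖Y.fst‖ ^ 2 + ‖Y.snd‖ ^ 2) :
    ‖X‖ = ‖Y‖ := by
  rw [← norm_sq_vv, ← norm_sq_vv] at h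
  exact (sq_eq_sq₀ (norm_nonneg _) (norm_nonneg _)).1 h

/-- apply a linear isometry to both vectors -/
def pairA (A : ℍ[ℝ] ≃ₗᵢ[ℝ] ℍ[ℝ]) : VV ≃ₗᵢ[ℝ] VV where
  toFun X := pr (A X.fst) (A X.snd)
  invFun X := pr (A.symm X.fst) (A.symm X.snd)
  map_add' X Y := vv_ext (by simp) (by simp)
  map_smul' c X := vv_ext (by simp) (by simp)
  left_inv X := vv_ext (by simp) (by simp)
  right_inv X := vv_ext (by simp) (by simp)
  norm_map' X := by
    show ‖pr (A X.fst) (A X.snd)‖ = ‖X‖
    apply norm_vv_eq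
    simp

lemma pairA_apply (A : ℍ[ℝ] ≃ₗᵢ[ℝ] ℍ[ℝ]) (X : VV) : pairA A X = pr (A X.fst) (A X.snd) := rfl

lemma pairA_V2 (A : ℍ[ℝ] ≃ₗᵢ[ℝ] ℍ[ℝ]) : ∀ F ∈ V2, pairA A F ∈ V2 := by
  intro F hF
  refine ⟨?_, ?_, ?_⟩
  · rw [pairA_apply, pr_fst, A.norm_map]; exact hF.1
  · rw [pairA_apply, pr_snd, A.norm_map]; exact hF.2.1
  · rw [pairA_apply, pr_fst, pr_snd, A.inner_map_map]; exact hF.2.2

lemma pairA_symm_V2 (A : ℍ[ℝ] ≃ₗᵢ[ℝ] ℍ[ℝ]) : ∀ F ∈ V2, (pairA A).symm F ∈ V2 := by
  intro F hF
  exact pairA_V2 A.symm F hF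

/-- a reflection of the plane of indices -/
def rotD (c s : ℝ) (h : c ^ 2 + s ^ 2 = 1) : VV ≃ₗᵢ[ℝ] VV where
  toFun X := pr (c • X.fst + s • X.snd) (s • X.fst - c • X.snd)
  invFun X := pr (c • X.fst + s • X.snd) (s • X.fst - c • X.snd)
  map_add' X Y := vv_ext (by simp; abel) (by simp; abel)
  map_smul' r X := vv_ext
    (by simp only [pr_fst, WithLp.smul_fst, WithLp.smul_snd, RingHom.id_apply]; module)
    (by simp only [pr_snd, WithLp.smul_fst, WithLp.smul_snd, RingHom.id_apply]; module)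
  left_inv X := vv_ext
    (by
      simp only [pr_fst, pr_snd]
      have : c • (c • X.fst + s • X.snd) + s • (s • X.fst - c • X.snd) =
        (c ^ 2 + s ^ 2) • X.fst := by module
      rw [this, h, one_smul])
    (by
      simp only [pr_fst, pr_snd]
      have : s • (c • X.fst + s • X.snd) - c • (s • X.fst - c • X.snd) =
        (c ^ 2 + s ^ 2) • X.snd := by module
      rw [this, h, one_smul])
  right_inv X := vv_ext
    (by
      simp only [pr_fst, pr_snd]
      have : c • (c • X.fst + s • X.snd) + s • (s • X.fst - c • X.snd) =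
        (c ^ 2 + s ^ 2) • X.fst := by module
      rw [this, h, one_smul])
    (by
      simp only [pr_fst, pr_snd]
      have : s • (c • X.fst + s • X.snd) - c • (s • X.fst - c • X.snd) =
        (c ^ 2 + s ^ 2) • X.snd := by module
      rw [this, h, one_smul])
  norm_map' X := by
    show ‖pr (c • X.fst + s • X.snd) (s • X.fst - c • X.snd)‖ = ‖X‖
    apply norm_vv_eq
    rw [pr_fst, pr_snd, norm_add_sq_real, norm_sub_sq_real]
    simp only [norm_smul, mul_pow, inner_smul_left, inner_smul_right, Real.norm_eq_abs, sq_abs,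
      conj_trivial]
    linear_combination (‖X.fst‖ ^ 2 + ‖X.snd‖ ^ 2) * h

lemma rotD_apply (c s : ℝ) (h : c ^ 2 + s ^ 2 = 1) (X : VV) :
    rotD c s h X = pr (c • X.fst + s • X.snd) (s • X.fst - c • X.snd) := rfl

lemma rotD_symm_apply (c s : ℝ) (h : c ^ 2 + s ^ 2 = 1) (X : VV) :
    (rotD c s h).symm X = pr (c • X.fst + s • X.snd) (s • X.fst - c • X.snd) := rfl

lemma rotD_V2 (c s : ℝ) (h : c ^ 2 + s ^ 2 = 1) : ∀ F ∈ V2, rotD c s h F ∈ V2 := by
  intro F hF
  obtain ⟨h1, h2, h3⟩ := hF
  have h3' : inner ℝ F.snd F.fst = 0 := by rw [real_inner_comm]; exact h3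
  refine ⟨?_, ?_, ?_⟩
  · rw [rotD_apply, pr_fst]
    have : ‖c • F.fst + s • F.snd‖ ^ 2 = 1 := by
      rw [norm_add_sq_real]
      simp only [norm_smul, mul_pow, inner_smul_left, inner_smul_right, Real.norm_eq_abs, sq_abs,
        conj_trivial, h1, h2, h3]
      linear_combination h
    exact (pow_eq_one_iff_of_nonneg (norm_nonneg _) two_ne_zero).1 this
  · rw [rotD_apply, pr_snd]
    have : ‖s • F.fst - c • F.snd‖ ^ 2 = 1 := by
      rw [norm_sub_sq_real]
      simp only [norm_smul, mul_pow, inner_smul_left, inner_smul_right, Real.norm_eq_abs, sq_abs,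
        conj_trivial, h1, h2, h3]
      linear_combination h
    exact (pow_eq_one_iff_of_nonneg (norm_nonneg _) two_ne_zero).1 this
  · rw [rotD_apply, pr_fst, pr_snd]
    simp only [inner_add_left, inner_sub_right, inner_smul_left, inner_smul_right, conj_trivial,
      h3, h3', real_inner_self_eq_norm_sq, h1, h2]
    ring

lemma rotD_symm_V2 (c s : ℝ) (h : c ^ 2 + s ^ 2 = 1) : ∀ F ∈ V2, (rotD c s h).symm F ∈ V2 := by
  intro F hF
  exact rotD_V2 c s h F hF

/-- the reflection exchanging two suitable pairs of vectors -/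
lemma exists_reflection {V : Type} [NormedAddCommGroup V] [InnerProductSpace ℝ V]
    [FiniteDimensional ℝ V] (a b p q : V) (h1 : ‖a‖ = ‖p‖) (h2 : ‖b‖ = ‖q‖)
    (h3 : inner ℝ a b = inner ℝ p q) (h4 : inner ℝ a q = inner ℝ b p) :
    ∃ A : V ≃ₗᵢ[ℝ] V, A a = p ∧ A b = q ∧ A p = a ∧ A q = b := by
  set W : Submodule ℝ V := Submodule.span ℝ {a - p, b - q} with hW
  set A := (Wᗮ).reflection with hA
  have m1 : a - p ∈ W := Submodule.subset_span (by simp)
  have m2 : b - q ∈ W := Submodule.subset_span (by simp)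
  have c1 : inner ℝ q a = inner ℝ a q := real_inner_comm _ _
  have c2 : inner ℝ p b = inner ℝ b p := real_inner_comm _ _
  have c3 : inner ℝ b a = inner ℝ a b := real_inner_comm _ _
  have c4 : inner ℝ q p = inner ℝ p q := real_inner_comm _ _
  have c5 : inner ℝ p a = inner ℝ a p := real_inner_comm _ _
  have c6 : inner ℝ q b = inner ℝ b q := real_inner_comm _ _
  have n1 : a + p ∈ Wᗮ := by
    rw [Submodule.mem_orthogonal, hW]
    intro u hu
    induction hu using Submodule.span_induction with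
    | mem x hx =>
      rcases hx with rfl | rfl
      · simp only [inner_add_right, inner_sub_left, real_inner_self_eq_norm_sq, h1]
        linarith
      · simp only [inner_add_right, inner_sub_left]
        linarith
    | zero => simp
    | add x y _ _ hx hy => rw [inner_add_left, hx, hy, add_zero]
    | smul c x _ hx => rw [inner_smul_left, hx, mul_zero]
  have n2 : b + q ∈ Wᗮ := by
    rw [Submodule.mem_orthogonal, hW]
    intro u hu
    induction hu using Submodule.span_induction with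
    | mem x hx =>
      rcases hx with rfl | rfl
      · simp only [inner_add_right, inner_sub_left]
        linarith
      · simp only [inner_add_right, inner_sub_left, real_inner_self_eq_norm_sq, h2]
        linarith
    | zero => simp
    | add x y _ _ hx hy => rw [inner_add_left, hx, hy, add_zero]
    | smul c x _ hx => rw [inner_smul_left, hx, mul_zero]
  have r1 : A (a - p) = -(a - p) :=
    Submodule.reflection_mem_subspace_orthogonal_precomplement_eq_neg m1
  have r2 : A (b - q) = -(b - q) :=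
    Submodule.reflection_mem_subspace_orthogonal_precomplement_eq_neg m2
  have s1 : A (a + p) = a + p := Submodule.reflection_mem_subspace_eq_self n1
  have s2 : A (b + q) = b + q := Submodule.reflection_mem_subspace_eq_self n2
  have two : ∀ x y : V, (2 : ℝ) • x = (2 : ℝ) • y → x = y := fun x y h =>
    smul_right_injective V (two_ne_zero (α := ℝ)) h
  refine ⟨A, ?_, ?_, ?_, ?_⟩
  · apply two
    have : (2 : ℝ) • A a = A (a + p) + A (a - p) := by rw [map_add, map_sub]; module
    rw [this, r1, s1]; module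
  · apply two
    have : (2 : ℝ) • A b = A (b + q) + A (b - q) := by rw [map_add, map_sub]; module
    rw [this, r2, s2]; module
  · apply two
    have : (2 : ℝ) • A p = A (a + p) - A (a - p) := by rw [map_add, map_sub]; module
    rw [this, r1, s1]; module
  · apply two
    have : (2 : ℝ) • A q = A (b + q) - A (b - q) := by rw [map_add, map_sub]; module
    rw [this, r2, s2]; module

/-- unit vector orthogonal to a given one -/
lemma exists_unit (α β : ℝ) : ∃ c s : ℝ, c ^ 2 + s ^ 2 = 1 ∧ c * β = s * α := by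
  by_cases h : α ^ 2 + β ^ 2 = 0
  · have h1 : α = 0 := by nlinarith [sq_nonneg α, sq_nonneg β]
    have h2 : β = 0 := by nlinarith [sq_nonneg α, sq_nonneg β]
    exact ⟨1, 0, by norm_num, by rw [h1, h2]; ring⟩
  · have h0 : 0 < α ^ 2 + β ^ 2 := lt_of_le_of_ne (by positivity) (Ne.symm h)
    have hs : 0 < √(α ^ 2 + β ^ 2) := Real.sqrt_pos.2 h0
    refine ⟨α / √(α ^ 2 + β ^ 2), β / √(α ^ 2 + β ^ 2), ?_, by ring⟩
    rw [div_pow, div_pow, Real.sq_sqrt h0.le]
    field_simp

/-- **the Stiefel manifold is weakly symmetric** -/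
theorem weaklySymmetric : IsWeaklySymmetric gM := by
  intro x y
  set F := emb x with hF
  set G := emb y with hG
  obtain ⟨f1, f2, f3⟩ := emb_mem x
  obtain ⟨g1, g2, g3⟩ := emb_mem y
  rw [← hF] at f1 f2 f3
  rw [← hG] at g1 g2 g3
  obtain ⟨c, s, hcs, hm⟩ := exists_unit (inner ℝ F.fst G.fst - inner ℝ F.snd G.snd)
    (inner ℝ F.fst G.snd + inner ℝ F.snd G.fst)
  have hDF := rotD_V2 c s hcs F (emb_mem x)
  obtain ⟨e1, e2, e3⟩ := hDF
  rw [rotD_apply, pr_fst] at e1
  rw [rotD_apply, pr_snd] at e2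
  rw [rotD_apply, pr_fst, pr_snd] at e3
  obtain ⟨A, a1, a2, a3, a4⟩ := exists_reflection (c • F.fst + s • F.snd) (s • F.fst - c • F.snd)
    G.fst G.snd (by rw [e1, g1]) (by rw [e2, g2]) (by rw [e3, g3]) (by
      simp only [inner_add_left, inner_sub_left, inner_smul_left, conj_trivial]
      linarith)
  set T := (rotD c s hcs).trans (pairA A) with hT
  have hTV : ∀ F ∈ V2, T F ∈ V2 := fun F hF => pairA_V2 A _ (rotD_V2 c s hcs F hF)
  have hTV' : ∀ F ∈ V2, T.symm F ∈ V2 := fun F hF =>
    rotD_symm_V2 c s hcs _ (pairA_symm_V2 A F hF)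
  refine ⟨actD T hTV hTV', actD_isometry T hTV hTV', ?_, ?_⟩
  · apply emb_injective
    show emb (act T hTV x) = emb y
    rw [emb_act]
    show pr (A (c • F.fst + s • F.snd)) (A (s • F.fst - c • F.snd)) = G
    rw [a1, a2]
    rfl
  · apply emb_injective
    show emb (act T hTV y) = emb x
    rw [emb_act]
    show pr (A (c • G.fst + s • G.snd)) (A (s • G.fst - c • G.snd)) = F
    rw [map_add, map_sub, map_smul, map_smul, map_smul, map_smul, a3, a4]
    apply vv_ext
    · rw [pr_fst]
      have : c • (c • F.fst + s • F.snd) + s • (s • F.fst - c • F.snd) =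
        (c ^ 2 + s ^ 2) • F.fst := by module
      rw [this, hcs, one_smul]
    · rw [pr_snd]
      have : s • (c • F.fst + s • F.snd) - c • (s • F.fst - c • F.snd) =
        (c ^ 2 + s ^ 2) • F.snd := by module
      rw [this, hcs, one_smul]

end Pool.Agent.Y503.HC
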