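import Pool.Agent.Y503.HC.Quat

/-! Metric characterisation of the pair of points `± Z(x)`. -/

set_option autoImplicit false

open scoped Manifold ContDiff Topology ENNReal Quaternion
open Set Module InnerProductGeometry Filter Real

noncomputable section

namespace Pool.Agent.Y503.HC

/-- midpoints of `x` and its antipode -/
def Mid (x y : MM) : Prop :=
  dist gM x y = ENNReal.ofReal (√2 * (π / 2)) ∧
  dist gM y (ng x) = ENNReal.ofReal (√2 * (π / 2))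

lemma mid_lm {x y : MM} {a : ℍ[ℝ]} (a0 : a.re = 0) (a1 : ‖a‖ = 1)
    (hy : emb y = lm a (emb x)) : Mid x y := by
  refine ⟨?_, ?_⟩
  · rw [dist_lm a1 hy, a0, arccos_zero]
  · have h1 : emb (ng x) = lm (-star a) (emb y) := by
      rw [emb_ng, hy]
      apply vv_ext
      · rw [lm_fst, lm_fst, ← mul_assoc, neg_mul, star_mul_self_unit a1]; simp
      · rw [lm_snd, lm_snd, ← mul_assoc, neg_mul, star_mul_self_unit a1]; simp
    rw [dist_lm (by rw [norm_neg, norm_star, a1]) h1]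
    simp [a0]

lemma mid_rm {x y : MM} {b : ℍ[ℝ]} (b0 : b.re = 0) (b1 : ‖b‖ = 1)
    (hy : emb y = rm (emb x) b) : Mid x y := by
  refine ⟨?_, ?_⟩
  · rw [dist_rm b1 hy, b0, arccos_zero]
  · have h1 : emb (ng x) = rm (emb y) (-star b) := by
      rw [emb_ng, hy]
      apply vv_ext
      · rw [rm_fst, rm_fst, mul_assoc, mul_neg, self_mul_star_unit b1]; simp
      · rw [rm_snd, rm_snd, mul_assoc, mul_neg, self_mul_star_unit b1]; simp
    rw [dist_rm (by rw [norm_neg, norm_star, b1]) h1]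
    simp [b0]

lemma angle_ng (x y : MM) : angle (emb y) (emb (ng x)) = π - angle (emb x) (emb y) := by
  rw [emb_ng, angle_neg_right, angle_comm]

lemma le_of_ofReal {a b : ℝ} (hb : 0 ≤ b) (h : ENNReal.ofReal (√2 * a) ≤ ENNReal.ofReal (√2 * b)) :
    a ≤ b := by
  have h1 := (ENNReal.ofReal_le_ofReal_iff (mul_nonneg (sqrt_nonneg _) hb)).1 h
  exact le_of_mul_le_mul_left h1 sqrt2_pos

lemma Mid.inner_eq {x y : MM} (h : Mid x y) : inner ℝ (emb x) (emb y) = 0 := by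
  have h1 := angle_le x y
  have h2 := angle_le y (ng x)
  rw [h.1] at h1
  rw [h.2, angle_ng] at h2
  have h3 := le_of_ofReal (by positivity) h1
  have h4 := le_of_ofReal (by positivity) h2
  have h5 : angle (emb x) (emb y) = π / 2 := by linarith
  rw [inner_eq_cos, h5, cos_pi_div_two, mul_zero]

lemma mid_conds {F G : VV} (hF : F ∈ V2) (hG : G ∈ V2) (h : (√2)⁻¹ • (F + G) ∈ V2) :
    inner ℝ F.fst G.fst = 0 ∧ inner ℝ F.snd G.snd = 0 ∧
      inner ℝ F.fst G.snd + inner ℝ G.fst F.snd = 0 := by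
  obtain ⟨f1, f2, f3⟩ := hF
  obtain ⟨g1, g2, g3⟩ := hG
  obtain ⟨h1, h2, h3⟩ := h
  have e : ((√2)⁻¹ : ℝ) ^ 2 = 1 / 2 := by rw [inv_pow, sqrt2_sq]; norm_num
  have n1 : ‖((√2)⁻¹ • (F + G)).fst‖ ^ 2 = 1 := by rw [h1]; norm_num
  have n2 : ‖((√2)⁻¹ • (F + G)).snd‖ ^ 2 = 1 := by rw [h2]; norm_num
  rw [WithLp.smul_fst, WithLp.add_fst, norm_smul, mul_pow, Real.norm_eq_abs, sq_abs, e,
    norm_add_sq_real, f1, g1] at n1
  rw [WithLp.smul_snd, WithLp.add_snd, norm_smul, mul_pow, Real.norm_eq_abs, sq_abs, e,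
    norm_add_sq_real, f2, g2] at n2
  rw [WithLp.smul_fst, WithLp.add_fst, WithLp.smul_snd, WithLp.add_snd, inner_smul_left,
    inner_smul_right, inner_add_left, inner_add_right, inner_add_right, f3, g3, conj_trivial,
    ← mul_assoc, ← sq, e] at h3
  refine ⟨by linarith, by linarith, by linarith⟩

lemma Mid.conds {x y : MM} (h : Mid x y) :
    inner ℝ (emb x).fst (emb y).fst = 0 ∧ inner ℝ (emb x).snd (emb y).snd = 0 ∧
      inner ℝ (emb x).fst (emb y).snd + inner ℝ (emb y).fst (emb x).snd = 0 :=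
  mid_conds (emb_mem x) (emb_mem y) (mid_mem h.inner_eq h.1.le)

lemma zero_of_sq3 {a b c : ℝ} (h : a ^ 2 + b ^ 2 + c ^ 2 = 0) : a = 0 ∧ b = 0 ∧ c = 0 := by
  have h1 := sq_nonneg a
  have h2 := sq_nonneg b
  have h3 := sq_nonneg c
  refine ⟨?_, ?_, ?_⟩
  · exact (pow_eq_zero_iff two_ne_zero).1 (by linarith)
  · exact (pow_eq_zero_iff two_ne_zero).1 (by linarith)
  · exact (pow_eq_zero_iff two_ne_zero).1 (by linarith)

/-- the algebraic part of the description of the midpoints -/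
lemma quat_alg {u p q : ℍ[ℝ]} (hu0 : u.re = 0) (hu : ‖u‖ = 1) (hp0 : p.re = 0) (hp : ‖p‖ = 1)
    (hq : ‖q‖ = 1) (hpq : inner ℝ p q = 0) (huq : inner ℝ u q = 0)
    (h : q.re + inner ℝ p u = 0) : q = u * p ∨ q = p * u := by
  have nu := norm_sq_q u
  have np := norm_sq_q p
  have nq := norm_sq_q q
  rw [hu, hu0] at nu
  rw [hp, hp0] at np
  rw [hq] at nq
  rw [inner_q, hp0] at hpq h
  rw [inner_q, hu0] at huq
  rw [hu0] at h
  obtain ⟨u0, u1, u2, u3⟩ := u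
  obtain ⟨p0, p1, p2, p3⟩ := p
  obtain ⟨q0, q1, q2, q3⟩ := q
  simp only at hu0 hp0 nu np nq hpq huq h
  subst hu0 hp0
  have hq0 : q0 = -(p1 * u1 + p2 * u2 + p3 * u3) := by linarith
  -- the cross product
  obtain ⟨n1, hn1⟩ : ∃ n1, n1 = u2 * p3 - u3 * p2 := ⟨_, rfl⟩
  obtain ⟨n2, hn2⟩ : ∃ n2, n2 = u3 * p1 - u1 * p3 := ⟨_, rfl⟩
  obtain ⟨n3, hn3⟩ : ∃ n3, n3 = u1 * p2 - u2 * p1 := ⟨_, rfl⟩
  have hN : n1 ^ 2 + n2 ^ 2 + n3 ^ 2 = 1 - (p1 * u1 + p2 * u2 + p3 * u3) ^ 2 := by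
    rw [hn1, hn2, hn3]
    linear_combination (-(p1 ^ 2 + p2 ^ 2 + p3 ^ 2)) * nu - np
  have hQ : q1 ^ 2 + q2 ^ 2 + q3 ^ 2 = 1 - (p1 * u1 + p2 * u2 + p3 * u3) ^ 2 := by
    rw [hq0] at nq
    linear_combination -nq
  have c1 : q2 * n3 - q3 * n2 = 0 := by
    rw [hn2, hn3]; linear_combination u1 * hpq - p1 * huq
  have c2 : q3 * n1 - q1 * n3 = 0 := by
    rw [hn1, hn3]; linear_combination u2 * hpq - p2 * huq
  have c3 : q1 * n2 - q2 * n1 = 0 := by
    rw [hn1, hn2]; linear_combination u3 * hpq - p3 * huq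
  have hd : (q1 * n1 + q2 * n2 + q3 * n3) ^ 2 = (n1 ^ 2 + n2 ^ 2 + n3 ^ 2) ^ 2 := by
    have : (q1 * n1 + q2 * n2 + q3 * n3) ^ 2 =
      (q1 ^ 2 + q2 ^ 2 + q3 ^ 2) * (n1 ^ 2 + n2 ^ 2 + n3 ^ 2) - (q2 * n3 - q3 * n2) ^ 2 -
        (q3 * n1 - q1 * n3) ^ 2 - (q1 * n2 - q2 * n1) ^ 2 := by ring
    rw [this, c1, c2, c3, hQ, hN]; ring
  rcases sq_eq_sq_iff_eq_or_eq_neg.1 hd with hd | hd
  · left
    have hz : (q1 - n1) ^ 2 + (q2 - n2) ^ 2 + (q3 - n3) ^ 2 = 0 := by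
      linear_combination hQ - hN - 2 * hd
    obtain ⟨z1, z2, z3⟩ := zero_of_sq3 hz
    have e1 : q1 = n1 := by linarith
    have e2 : q2 = n2 := by linarith
    have e3 : q3 = n3 := by linarith
    ext
    · simp [hq0]; ring
    · simp [e1, hn1]
    · simp [e2, hn2]; ring
    · simp [e3, hn3]
  · right
    have hz : (q1 + n1) ^ 2 + (q2 + n2) ^ 2 + (q3 + n3) ^ 2 = 0 := by
      linear_combination hQ - hN + 2 * hd
    obtain ⟨z1, z2, z3⟩ := zero_of_sq3 hz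
    have e1 : q1 = -n1 := by linarith
    have e2 : q2 = -n2 := by linarith
    have e3 : q3 = -n3 := by linarith
    ext
    · simp [hq0]; ring
    · simp [e1, hn1]; ring
    · simp [e2, hn2]; ring
    · simp [e3, hn3]; ring

end Pool.Agent.Y503.HC
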